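import Pool.Agent.helper70.QSD.SpecB

/-!
# Project qsd (MP_7a3aac_co): row CHB, Chebotarev for polynomials
-/

set_option autoImplicit false

namespace Pool.Agent.helper70.QSD

open Pool.Agent.helper53.AU
open scoped Classical IntermediateField Polynomial

noncomputable section

theorem CHB (hEVR : EVR_stmt) (hFFP : FFP_stmt) (hGLP : GLP_stmt) (hSML : SML_stmt) (hEVP : EVP_stmt)
    (hUCN : UCN_stmt) : CHB_stmt := by
  intro d
  obtain ⟨N₀, hN₀⟩ := hUCN d
  refine ⟨N₀, ?_⟩
  intro N hN k _ _ _ σ hσ P m hPm hPirr hPd hmd hPc h D hD0 hDd hhD Gr hrt hdist G hfr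
  obtain ⟨F, iF, iA, s, z, hFF, htr, hfd, hgen, hker, hfrac⟩ := hFFP k P hPm hPirr
  have hev := hEVR.1 k F s z
  have h0 : h ≠ 0 := by
    rintro rfl
    exact hD0 (zero_dvd_iff.mp hhD)
  have hinj : ∀ q : k[X], Polynomial.aeval s q = 0 → q = 0 := fun q hq =>
    (transcendental_iff.mp htr) q hq
  have hs0 : Polynomial.aeval s h ≠ 0 := fun h1 => h0 (hinj h h1)
  have hzP : ev s z P = 0 := (hker P).mpr dvd_rfl
  -- the conjugates
  have hr : ∀ i, ev s (ev s z (Gr i) / Polynomial.aeval s h) P = 0 := by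
    intro i
    have h1 := (hker _).mpr (hrt i)
    rw [hEVR.2.1 k F s z P (Gr i) h m hPd.le hs0] at h1
    exact (mul_eq_zero.mp h1).resolve_left (pow_ne_zero _ hs0)
  have hrinj : Function.Injective fun i => ev s z (Gr i) / Polynomial.aeval s h := by
    intro i j hij
    by_contra hne
    apply hdist i j hne
    rw [← hker, hev.2.1]
    have h1 := (div_left_inj' hs0).mp hij
    rw [h1, sub_self]
  have hgal : IsGalois k⟮s⟯ F := hGLP k F s z P m hPm hPd hgen hzP _ hrinj hr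
  have hcov : Cov d k F s z := ⟨hFF, htr, hgal, hgen, P, hPm, hPd.le.trans hmd, hPc, hzP⟩
  -- the automorphism
  have hw : ev s (ev s z G / Polynomial.aeval s h) (mp2 (σ : k →+* k) P) = 0 := by
    have h1 := (hker _).mpr hfr
    have hnd : (mp2 (σ : k →+* k) P).natDegree ≤ m := by
      rw [mp2, ← hPd]
      exact Polynomial.natDegree_map_le
    rw [hEVR.2.1 k F s z (mp2 (σ : k →+* k) P) G h m hnd hs0] at h1
    exact (mul_eq_zero.mp h1).resolve_left (pow_ne_zero _ hs0)
  obtain ⟨α, hα1, hα2, hα3⟩ := hSML k F s z _ P σ hPm htr hfd hker hfrac hw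
  have hinv : InvFr k (2 ^ N) α := fun c => ⟨σ c, hα1 c, hσ c⟩
  obtain ⟨P₀, hP1, hP2, hP3, hP4⟩ := hN₀ N hN k F s z hcov α hinv hα2 D hD0 hDd
  obtain ⟨c, b, hc, hcb, hfin⟩ := hEVP k F hFF P₀ s z hP1 hP2
  obtain ⟨hc1, hc2⟩ := hfin (2 ^ N) α hinv hP4 hα2
  have hcst : ∀ x : k, P₀.Ge 1 (algebraMap k F x) → x = 0 := by
    intro x hx
    by_contra hne
    have h1 := hx.le (by simpa using hne)
    rw [P₀.ord_const x hne] at h1
    omega
  have hevC : ∀ q : k[X], ev c b (Polynomial.C q) = Polynomial.eval c q := by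
    intro q
    rw [(hEVR.1 k k c b).2.2.2.1]
    simp
  have hDc : Polynomial.eval c D ≠ 0 := by
    intro hD
    have h1 := hcb (Polynomial.C D)
    rw [hev.2.2.2.1, hevC, hD, map_zero, sub_zero] at h1
    have h2 : Polynomial.aeval s D ≠ 0 := fun h3 => hD0 (hinj D h3)
    have h3 := h1.le h2
    rw [hP3] at h3
    omega
  refine ⟨c, b, hc1, ?_, hDc, ?_⟩
  · have h1 := hcb P
    rw [hzP, zero_sub] at h1
    apply hcst
    have h2 := h1.neg
    rwa [neg_neg] at h2
  · apply hc2 G h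
    · rw [hα3, div_mul_cancel₀ _ hs0]
    · intro h1
      obtain ⟨q, hq⟩ := hhD
      apply hDc
      rw [hq, Polynomial.eval_mul, h1, zero_mul]

end

end Pool.Agent.helper70.QSD
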