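import Pool.Agent.helper70.QSD.SpecD

/-!
# Project qsd (MP_7a3aac_co): row FIN, the theorem
-/

set_option autoImplicit false

namespace Pool.Agent.helper70.QSD

open Pool.Agent.helper53.AU
open scoped Classical IntermediateField Polynomial
open FirstOrder

noncomputable section

theorem FIN_sp (K : Type) [Field K] [CharP K 2] (u v w x : K) (h : Sp3 u v w x) : Sp3 v w (u + v) x := by
  have h2 : ∀ y : K, y + y = 0 := fun y => CharTwo.add_self_eq_zero y
  unfold Sp3 at *
  rcases h with h | h | h | h | h | h | h | h <;> rw [h]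
  · exact Or.inl rfl
  · right; right; right; right; right; left
    linear_combination (h2 v) * (-1 : K)
  · right; left; rfl
  · right; right; left; rfl
  · right; right; right; left; rfl
  · right; right; right; right; right; right; right
    linear_combination (h2 v) * (-1 : K)
  · right; right; right; right; left; rfl
  · right; right; right; right; right; right; left
    ring

theorem FIN_blk (K : Type) [Field K] [CharP K 2] [Ring.CompatibleRing K] (r : ℕ)
    (θ : Language.ring.Formula (Fin 3 ⊕ Fin r)) (a : Fin r → K) (u v w : K) (h : Blk3 θ a u v w) :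
    Blk3 θ a v w (u + v) := by
  obtain ⟨u', v', w', h1, h2, h3, h4, h5⟩ := h
  exact ⟨u', v', w', FIN_sp K u v w u' h1, FIN_sp K u v w v' h2, FIN_sp K u v w w' h3, h4, h5⟩

theorem FIN (hREL : REL_stmt) (hTRN : TRN_stmt) (hEMB : EMB_stmt) (hDEF : DEF_stmt) (hDSG : DSG_stmt)
    (hDCT : DCT_stmt) : FIN_stmt := by
  intro r θ lam hlam
  obtain ⟨φ, hφ⟩ := hDEF r θ lam
  obtain ⟨n₀, L, hL, hT⟩ := hTRN r φ
  refine ⟨max n₀ 1, ?_⟩
  intro n hn hn6 K iK iF iC hcard a hdes
  apply hlam
  have hn0 : n₀ ≤ n := le_trans (le_max_left _ _) hn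
  have hn1 : 1 ≤ n := le_trans (le_max_right _ _) hn
  obtain ⟨hch, ι, hι⟩ := hEMB.1 K n hcard
  have hreg := hDSG K r θ a lam hdes
  have h1 : φ.Realize a := (hφ K a).mpr hreg
  have h2 := (hREL K kk ι (Fin r) 0 φ a default).mp h1
  rw [hι] at h2
  have hmem : ∀ x : K, ι x ^ 2 ^ n = ι x := by
    intro x
    have h3 : ι x ∈ Set.range ι := ⟨x, rfl⟩
    rw [hι] at h3
    exact h3
  have hdef : (fun i => ι ((default : Fin 0 → K) i)) = (default : Fin 0 → kk) := Subsingleton.elim _ _
  rw [hdef] at h2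
  have hm1 : 6 * L - 1 + 1 = 6 * L := by omega
  have h4 := (hT n (6 * L - 1) hn0 (by rw [hm1]; exact Dvd.intro_left 6 rfl) (fun i => ι (a i))
    (fun i => hmem _)).mp h2
  -- the big field
  have hN6 : (n * (6 * L - 1)) % 6 = 5 := by
    rw [Nat.mul_mod, hn6]
    omega
  have hN1 : 1 ≤ n * (6 * L - 1) := by
    by_contra h5
    have h6 : n * (6 * L - 1) = 0 := by omega
    rw [h6] at hN6
    omega
  obtain ⟨K', iK', iF', hK'⟩ := hEMB.2 (n * (6 * L - 1)) hN1
  obtain ⟨hch', ι', hι'⟩ := hEMB.1 K' _ hK'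
  let iR : Ring.CompatibleRing K' := Ring.compatibleRingOfRing K'
  have hpow : ∀ (x : kk), x ^ 2 ^ n = x → ∀ m : ℕ, x ^ 2 ^ (n * m) = x := by
    intro x hx m
    induction m with
    | zero => simp
    | succ m ih =>
      rw [Nat.mul_succ, pow_add, pow_mul, ih, hx]
  have hmem' : ∀ i, ∃ y : K', ι' y = ι (a i) := by
    intro i
    have h5 : ι (a i) ∈ Set.range ι' := by
      rw [hι']
      exact hpow _ (hmem _) _
    exact h5
  choose a' ha' using hmem'
  have h5 : φ.Realize a' := by
    refine (hREL K' kk ι' (Fin r) 0 φ a' default).mpr ?_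
    rw [hι']
    have h6 : (fun i => ι' (a' i)) = fun i => ι (a i) := funext ha'
    have hdef' : (fun i => ι' ((default : Fin 0 → K') i)) = (default : Fin 0 → kk) := Subsingleton.elim _ _
    rw [h6, hdef']
    exact h4
  have hreg' := (hφ K' a').mp h5
  exact hDCT K' _ hK' hN6 (Blk3 θ a') (fun u v w => FIN_blk K' r θ a' u v w) lam hreg'

end

end Pool.Agent.helper70.QSD
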