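import Pool.Agent.helper70.QSD.SpecC

/-!
# Project qsd (MP_7a3aac_co): row FS1, passage to the indices
-/

set_option autoImplicit false

namespace Pool.Agent.helper70.QSD

open Pool.Agent.helper53.AU
open scoped Classical IntermediateField Polynomial

noncomputable section

theorem FS1_acl (hACL : ACL_stmt) (Φ : KS ≃+* KS) (A : Subfield KS) (hA : Good Φ A) : IsAlgClosed A := by
  have := hACL.1
  refine IsAlgClosed.of_exists_root _ fun p hp hirr => ?_
  have hdeg : (p.map (algebraMap A KS)).degree ≠ 0 := by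
    rw [Polynomial.degree_map]
    exact hirr.degree_pos.ne'
  obtain ⟨x, hx⟩ := IsAlgClosed.exists_root (p.map (algebraMap A KS)) hdeg
  have hx' : Polynomial.aeval x p = 0 := by
    rw [Polynomial.IsRoot.def, Polynomial.eval_map] at hx
    exact hx
  have hxA : x ∈ A := hA.acl x ⟨p, hp.ne_zero, hx'⟩
  refine ⟨⟨x, hxA⟩, ?_⟩
  have h1 : (algebraMap A KS) (Polynomial.eval (⟨x, hxA⟩ : A) p) = 0 := by
    rw [← hx', Polynomial.aeval_def, Polynomial.eval, Polynomial.hom_eval₂]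
    rfl
  exact (map_eq_zero _).mp h1

theorem FS1_mp2_coeff {k k' : Type} [CommRing k] [CommRing k'] (σ : k →+* k') (G : k[X][X]) (i j : ℕ) :
    ((mp2 σ G).coeff i).coeff j = σ ((G.coeff i).coeff j) := by
  simp [mp2, Polynomial.coeff_map]

theorem FS1_mp2_comp {k k' k'' : Type} [CommRing k] [CommRing k'] [CommRing k''] (σ : k →+* k') (τ : k' →+* k'')
    (G : k[X][X]) : mp2 τ (mp2 σ G) = mp2 (τ.comp σ) G := by
  ext i j
  simp

/-- coefficientwise action of the inverse Frobenius maps on sequences -/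
def FS1_S (σ : ℕ → kk ≃+* kk) : (ℕ → kk) →+* (ℕ → kk) :=
  RingHom.pi fun j => ((σ j : kk →+* kk)).comp (ej j)

theorem FS1_S_apply (σ : ℕ → kk ≃+* kk) (x : ℕ → kk) (j : ℕ) : FS1_S σ x j = σ j (x j) := rfl

theorem FS1_ej_S (σ : ℕ → kk ≃+* kk) (j : ℕ) :
    (ej j).comp (FS1_S σ) = (σ j : kk →+* kk).comp (ej j) := by
  ext x
  rfl

theorem FS1 (hACL : ACL_stmt) (hEVR : EVR_stmt) (hLFT : LFT_stmt) (hLIF : LIF_stmt) (hIRR : IRR_stmt)
    (hNUL : NUL_stmt) : FS1_stmt := by
  intro N' Φ Φ' hΦ' A f hpos E y₁ z m P h Gr GΦ Gx ΦA hpk hcg rep hrep σ hσ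
  have : IsAlgClosed A := FS1_acl hACL Φ A hpos.good
  have hfinj : Function.Injective f := f.injective
  -- the lifts
  have hPm : (mp2 f P).Monic := hpk.mon.map _
  have hPirr : Irreducible (mp2 f P) := hNUL A KS f P hpk.mon hpk.irr
  obtain ⟨P', hP'm, hP'd, hP'⟩ := hLFT.2.2 (mp2 f P) hPm
  obtain ⟨h', hh'⟩ := hLFT.1 (h.map f)
  choose Gr' hGr' using fun i => hLFT.2.1 (mp2 f (Gr i))
  obtain ⟨G', hG'⟩ := hLFT.2.1 (mp2 f GΦ)
  choose Gx' hGx' using fun x => hLFT.2.1 (mp2 f (Gx x))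
  have hS1 : ∀ x : ℕ → kk, Φ' (pr (FS1_S σ x)) = pr x := by
    intro x
    rw [hΦ']
    congr 1
    funext j
    rw [FS1_S_apply, hσ]
  have hS2 : ∀ (t : ℕ → kk) (a : A), pr t = f a → pr (FS1_S σ t) = f (ΦA a) := by
    intro t a hta
    apply Φ'.injective
    rw [hS1, hta]
    have h1 := hpos.cmp (a : KS) a.2 (hpos.good.stb _ a.2)
    have h2 : (⟨Φ (a : KS), hpos.good.stb _ a.2⟩ : A) = ΦA a := Subtype.ext (hcg.res a).symm
    rw [h2] at h1
    exact h1.symm
  have hS3 : ∀ (Q' : (ℕ → kk)[X][X]) (Q : A[X][X]), mp2 pr Q' = mp2 f Q →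
      mp2 pr (mp2 (FS1_S σ) Q') = mp2 f (mp2 ΦA Q) := by
    intro Q' Q hQ
    ext i j
    rw [FS1_mp2_coeff, FS1_mp2_coeff, FS1_mp2_coeff, FS1_mp2_coeff]
    apply hS2
    rw [← FS1_mp2_coeff pr, hQ, FS1_mp2_coeff]
  have hS4 : ∀ (Q' : (ℕ → kk)[X]) (Q : A[X]), Q'.map pr = Q.map f →
      (Q'.map (FS1_S σ)).map pr = (Q.map ΦA).map f := by
    intro Q' Q hQ
    ext i
    rw [Polynomial.coeff_map, Polynomial.coeff_map, Polynomial.coeff_map, Polynomial.coeff_map]
    apply hS2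
    rw [← Polynomial.coeff_map, hQ, Polynomial.coeff_map]
  have hS5 : ∀ (j : ℕ) (Q' : (ℕ → kk)[X][X]), mp2 (ej j) (mp2 (FS1_S σ) Q') =
      mp2 (σ j : kk →+* kk) (mp2 (ej j) Q') := by
    intro j Q'
    rw [FS1_mp2_comp, FS1_mp2_comp, FS1_ej_S]
  have hS6 : ∀ (j : ℕ) (Q' : (ℕ → kk)[X]), (Q'.map (FS1_S σ)).map (ej j) =
      (Q'.map (ej j)).map (σ j : kk →+* kk) := by
    intro j Q'
    rw [Polynomial.map_map, Polynomial.map_map, FS1_ej_S]
  -- divisibilities
  have hdiv : ∀ (T : A[X][X]) (T' : (ℕ → kk)[X][X]), mp2 pr T' = mp2 f T → P ∣ T →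
      ∀ᶠ j in (UU : Filter ℕ), mp2 (ej j) P' ∣ mp2 (ej j) T' := by
    intro T T' hT hPT
    refine (hLIF.1 P' hP'm T').1 ?_
    rw [hP', hT]
    exact Polynomial.map_dvd _ hPT
  have hndiv : ∀ (T : A[X][X]) (T' : (ℕ → kk)[X][X]), mp2 pr T' = mp2 f T → ¬ P ∣ T →
      ∀ᶠ j in (UU : Filter ℕ), ¬ mp2 (ej j) P' ∣ mp2 (ej j) T' := by
    intro T T' hT hPT
    refine (hLIF.1 P' hP'm T').2 ?_
    rw [hP', hT]
    intro h1
    apply hPT
    exact (Polynomial.map_dvd_map (Polynomial.mapRingHom f)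
      (Polynomial.map_injective f hfinj) hpk.mon).mp h1
  have hmC : ∀ {k k' : Type} [CommRing k] [CommRing k'] (τ : k →+* k') (q : k[X]),
      mp2 τ (Polynomial.C q) = Polynomial.C (q.map τ) := by
    intro k k' _ _ τ q
    simp [mp2]
  -- the statements at almost all indices
  have e1 : ∀ᶠ j in (UU : Filter ℕ), Irreducible (mp2 (ej j) P') := by
    refine hIRR P' hP'm ?_
    rw [hP']
    exact hPirr
  have e2 : ∀ᶠ j in (UU : Filter ℕ), h'.map (ej j) ≠ 0 := by
    refine hLIF.2 h' ?_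
    rw [hh']
    exact (Polynomial.map_ne_zero_iff hfinj).mpr hpk.hne
  have e3 : ∀ᶠ j in (UU : Filter ℕ), ∀ i : Fin m, mp2 (ej j) P' ∣
      hcomp (mp2 (ej j) P') (mp2 (ej j) (Gr' i)) (h'.map (ej j)) m := by
    rw [Filter.eventually_all]
    intro i
    have h1 := hdiv (hcomp P (Gr i) h m) (hcomp P' (Gr' i) h' m) (by
      rw [hEVR.2.2, hEVR.2.2, hP', hGr', hh']) (hpk.rt i)
    filter_upwards [h1] with j hj
    rwa [hEVR.2.2] at hj
  have e4 : ∀ᶠ j in (UU : Filter ℕ), ∀ i i' : Fin m, i ≠ i' →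
      ¬ mp2 (ej j) P' ∣ mp2 (ej j) (Gr' i) - mp2 (ej j) (Gr' i') := by
    rw [Filter.eventually_all]
    intro i
    rw [Filter.eventually_all]
    intro i'
    by_cases hii : i = i'
    · exact Filter.Eventually.of_forall fun j hne => absurd hii hne
    have h1 := hndiv (Gr i - Gr i') (Gr' i - Gr' i') (by
      simp only [mp2, Polynomial.map_sub] at hGr' ⊢
      rw [hGr', hGr']) (hpk.dist i i' hii)
    filter_upwards [h1] with j hj
    intro _
    simpa only [mp2, Polynomial.map_sub] using hj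
  have e5 : ∀ᶠ j in (UU : Filter ℕ), mp2 (ej j) P' ∣
      hcomp (mp2 (σ j : kk →+* kk) (mp2 (ej j) P')) (mp2 (ej j) G') (h'.map (ej j)) m := by
    have h1 := hdiv (hcomp (mp2 ΦA P) GΦ h m) (hcomp (mp2 (FS1_S σ) P') G' h' m) (by
      rw [hEVR.2.2, hEVR.2.2, hG', hh', hS3 P' P hP']) hcg.frz
    filter_upwards [h1] with j hj
    rwa [hEVR.2.2, hS5] at hj
  have e6 : ∀ᶠ j in (UU : Filter ℕ), ∀ x ∈ E, x ∈ (A : Set KS) → mp2 (ej j) P' ∣ mp2 (ej j) (Gx' x) -
      Polynomial.C (Polynomial.C (if hx : x ∈ A then rep (f ⟨x, hx⟩) j else 0) * h'.map (ej j)) := by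
    rw [Filter.eventually_all_finset]
    intro x hx
    by_cases hxA : x ∈ A
    · have h1 := hdiv (Gx x - Polynomial.C (Polynomial.C ⟨x, hxA⟩ * h))
        (Gx' x - Polynomial.C (Polynomial.C (rep (f ⟨x, hxA⟩)) * h')) (by
          rw [mp2, Polynomial.map_sub, mp2, Polynomial.map_sub]
          have a1 := hGx' x
          rw [mp2, mp2] at a1
          rw [a1]
          have a2 := hmC pr (Polynomial.C (rep (f ⟨x, hxA⟩)) * h')
          have a3 := hmC f (Polynomial.C ⟨x, hxA⟩ * h)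
          rw [mp2] at a2 a3
          rw [a2, a3, Polynomial.map_mul, Polynomial.map_mul, Polynomial.map_C, Polynomial.map_C, hh', hrep])
        (hcg.cst x hx hxA)
      filter_upwards [h1] with j hj
      intro _
      rw [dif_pos hxA]
      have a2 := hmC (ej j) (Polynomial.C (rep (f ⟨x, hxA⟩)) * h')
      rw [Polynomial.map_mul, Polynomial.map_C] at a2
      simp only [mp2, Polynomial.map_sub] at hj a2 ⊢
      rw [a2] at hj
      exact hj
    · exact Filter.Eventually.of_forall fun j hh => absurd hh hxA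
  have e7 : ∀ᶠ j in (UU : Filter ℕ), ∀ x ∈ E, ∀ x' ∈ E, x + x' ∈ E → mp2 (ej j) P' ∣
      mp2 (ej j) (Gx' (x + x')) - (mp2 (ej j) (Gx' x) + mp2 (ej j) (Gx' x')) := by
    rw [Filter.eventually_all_finset]
    intro x hx
    rw [Filter.eventually_all_finset]
    intro x' hx'
    by_cases hs : x + x' ∈ E
    · have h1 := hdiv (Gx (x + x') - (Gx x + Gx x')) (Gx' (x + x') - (Gx' x + Gx' x')) (by
        simp only [mp2, Polynomial.map_sub, Polynomial.map_add] at hGx' ⊢
        rw [hGx', hGx', hGx']) (hcg.add x hx x' hx' hs)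
      filter_upwards [h1] with j hj
      intro _
      simpa only [mp2, Polynomial.map_sub, Polynomial.map_add] using hj
    · exact Filter.Eventually.of_forall fun j hh => absurd hh hs
  have e8 : ∀ᶠ j in (UU : Filter ℕ), ∀ x ∈ E, ∀ x' ∈ E, x * x' ∈ E → mp2 (ej j) P' ∣
      Polynomial.C (h'.map (ej j)) * mp2 (ej j) (Gx' (x * x')) - mp2 (ej j) (Gx' x) * mp2 (ej j) (Gx' x') := by
    rw [Filter.eventually_all_finset]
    intro x hx
    rw [Filter.eventually_all_finset]
    intro x' hx'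
    by_cases hs : x * x' ∈ E
    · have h1 := hdiv (Polynomial.C h * Gx (x * x') - Gx x * Gx x')
        (Polynomial.C h' * Gx' (x * x') - Gx' x * Gx' x') (by
        have a2 := hmC pr h'
        have a3 := hmC f h
        simp only [mp2, Polynomial.map_sub, Polynomial.map_mul] at hGx' a2 a3 ⊢
        rw [hGx', hGx', hGx', a2, a3, hh']) (hcg.mul x hx x' hx' hs)
      filter_upwards [h1] with j hj
      intro _
      have a2 := hmC (ej j) h'
      simp only [mp2, Polynomial.map_sub, Polynomial.map_mul] at hj a2 ⊢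
      rw [a2] at hj
      exact hj
    · exact Filter.Eventually.of_forall fun j hh => absurd hh hs
  have e9 : ∀ᶠ j in (UU : Filter ℕ), ∀ x ∈ E, Φ x ∈ E → ∃ M : ℕ, (mp2 (ej j) (Gx' x)).natDegree ≤ M ∧
      mp2 (ej j) P' ∣ Polynomial.C (h'.map (ej j)) *
        hcomp (mp2 (σ j : kk →+* kk) (mp2 (ej j) (Gx' x))) (mp2 (ej j) G') (h'.map (ej j)) M -
      Polynomial.C ((h'.map (ej j)).map (σ j : kk →+* kk)) * Polynomial.C (h'.map (ej j)) ^ M *
        mp2 (ej j) (Gx' (Φ x)) := by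
    rw [Filter.eventually_all_finset]
    intro x hx
    by_cases hs : Φ x ∈ E
    · have h1 := hdiv (Polynomial.C h * hcomp (mp2 ΦA (Gx x)) GΦ h (max (Gx x).natDegree (Gx' x).natDegree) -
          Polynomial.C (h.map ΦA) * Polynomial.C h ^ (max (Gx x).natDegree (Gx' x).natDegree) * Gx (Φ x))
        (Polynomial.C h' * hcomp (mp2 (FS1_S σ) (Gx' x)) G' h' (max (Gx x).natDegree (Gx' x).natDegree) -
          Polynomial.C (h'.map (FS1_S σ)) * Polynomial.C h' ^ (max (Gx x).natDegree (Gx' x).natDegree) *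
            Gx' (Φ x)) (by
        have a2 := hmC pr h'
        have a3 := hmC f h
        have a4 := hmC pr (h'.map (FS1_S σ))
        have a5 := hmC f (h.map ΦA)
        have a6 := hEVR.2.2 (ℕ → kk) KS pr (mp2 (FS1_S σ) (Gx' x)) G' h' (max (Gx x).natDegree (Gx' x).natDegree)
        have a7 := hEVR.2.2 A KS f (mp2 ΦA (Gx x)) GΦ h (max (Gx x).natDegree (Gx' x).natDegree)
        rw [hS3 (Gx' x) (Gx x) (hGx' x), hG', hh'] at a6
        rw [hS4 h' h hh'] at a4
        have a8 := hGx' (Φ x)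
        rw [hh'] at a2
        rw [← a7] at a6
        rw [← a5] at a4
        rw [← a3] at a2
        clear a3 a5 a7
        generalize mp2 ΦA (Gx x) = W1 at *
        generalize mp2 (FS1_S σ) (Gx' x) = W2 at *
        simp only [mp2, Polynomial.map_sub, Polynomial.map_mul, Polynomial.map_pow] at a2 a4 a6 a8 ⊢
        rw [a2, a4, a6, a8])
        (hcg.fro x hx hs _ (le_max_left _ _))
      filter_upwards [h1] with j hj
      intro _
      refine ⟨max (Gx x).natDegree (Gx' x).natDegree,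
        le_trans Polynomial.natDegree_map_le (le_max_right _ _), ?_⟩
      have a2 := hmC (ej j) h'
      have a4 := hmC (ej j) (h'.map (FS1_S σ))
      have a6 := hEVR.2.2 (ℕ → kk) kk (ej j) (mp2 (FS1_S σ) (Gx' x)) G' h' (max (Gx x).natDegree (Gx' x).natDegree)
      rw [hS5] at a6
      rw [hS6] at a4
      generalize mp2 (FS1_S σ) (Gx' x) = W2 at *
      rw [← a2, ← a4, ← a6]
      simpa only [mp2, Polynomial.map_sub, Polynomial.map_mul, Polynomial.map_pow] using hj
    · exact Filter.Eventually.of_forall fun j hh => absurd hh hs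
  -- the bound
  refine ⟨m + h'.natDegree + ∑ i ∈ Finset.range (P'.natDegree + 1), (P'.coeff i).natDegree, ?_⟩
  filter_upwards [e1, e2, e3, e4, e5, e6, e7, e8, e9] with j f1 f2 f3 f4 f5 f6 f7 f8 f9
  refine ⟨mp2 (ej j) P', h'.map (ej j), fun i => mp2 (ej j) (Gr' i), mp2 (ej j) G',
    fun x => mp2 (ej j) (Gx' x), ?_⟩
  refine ⟨hP'm.map _, f1, ?_, ?_, ?_, f2, ?_, f3, f4, f5, f6, f7, f8, f9⟩
  · rw [mp2, hP'm.natDegree_map, hP'd, mp2, hpk.mon.natDegree_map, hpk.deg]
  · omega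
  · intro i
    have h1 : ((mp2 (ej j) P').coeff i).natDegree ≤ (P'.coeff i).natDegree := by
      rw [mp2, Polynomial.coeff_map]
      exact Polynomial.natDegree_map_le
    by_cases hi : i ∈ Finset.range (P'.natDegree + 1)
    · have h2 := Finset.single_le_sum (f := fun i => (P'.coeff i).natDegree) (fun i _ => Nat.zero_le _) hi
      omega
    · have h3 : P'.coeff i = 0 := by
        apply Polynomial.coeff_eq_zero_of_natDegree_lt
        rw [Finset.mem_range] at hi
        omega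
      rw [h3, Polynomial.natDegree_zero] at h1
      omega
  · have h1 : (h'.map (ej j)).natDegree ≤ h'.natDegree := Polynomial.natDegree_map_le
    omega

end

end Pool.Agent.helper70.QSD
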