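import Pool.Agent.helper87.AU.AsmQ
import Pool.Agent.helper31.MX.BSE
import Pool.Agent.helper67.MX.SLK
import Pool.Agent.helper50.MX.TPL
import Pool.Agent.helper72.MX.ZER
import Pool.Agent.helper3.MX.CN1
import Pool.Agent.helper74.QSD.RT2
import Pool.Agent.helper9.QSD.DGH
import Pool.Agent.helper76.QSD.INT
import Pool.Agent.helper99.QSD.ZCT
import Pool.Agent.helper27.QSD.STB
import Pool.Agent.helper27.QSD.GBD
import Pool.Agent.helper27.QSD.BN2
import Pool.Agent.helper77.QSD.BB2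
import Pool.Agent.helper27.QSD.UC1
import Pool.Agent.helper27.QSD.UCN
import Pool.Agent.helper27.QSD.EVR
import Pool.Agent.helper34.QSD.FFP
import Pool.Agent.helper74.QSD.GLP
import Pool.Agent.helper27.QSD.SML
import Pool.Agent.helper75.QSD.EVP
import Pool.Agent.helper70.QSD.CHB
import Pool.Agent.helper32.QSD.EVL
import Pool.Agent.helper78.QSD.FS2
import Pool.Agent.helper50.QSD.FRB
import Pool.Agent.helper1.QSD.ACL
import Pool.Agent.helper47.QSD.LFT
import Pool.Agent.helper47.QSD.LIF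
import Pool.Agent.helper47.QSD.IRR
import Pool.Agent.helper1.QSD.NULx
import Pool.Agent.helper47.QSD.SAT
import Pool.Agent.helper10.QSD.CLB
import Pool.Agent.helper97.QSD.ACC
import Pool.Agent.helper78.QSD.GC1
import Pool.Agent.helper31.QSD.GC2
import Pool.Agent.helper1.QSD.PRE
import Pool.Agent.helper1.QSD.PRS
import Pool.Agent.helper99.QSD.IDN
import Pool.Agent.helper70.QSD.FS1
import Pool.Agent.helper8.QSD.FSX
import Pool.Agent.helper97.QSD.EXT
import Pool.Agent.helper97.QSD.INV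
import Pool.Agent.helper79.QSD.BKX
import Pool.Agent.helper31.QSD.INI
import Pool.Agent.helper45.QSD.REL
import Pool.Agent.helper97.QSD.LOS
import Pool.Agent.helper27.QSD.BFE
import Pool.Agent.helper45.QSD.TRN
import Pool.Agent.helper89.QSD.EMB
import Pool.Agent.helper4.QSD.DEF
import Pool.Agent.helper32.QSD.DSG
import Pool.Agent.helper35.QSD.DCT
import Pool.Agent.helper70.QSD.FIN

/-!
# Project qsd (MP_7a3aac_co): assembly of the rows
-/

namespace Pool.Agent.helper70.QSD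

open Pool.Agent.helper53.AU

theorem x_BSE : MX.BSE_stmt := MX.BSE aQV1 aQR1
theorem x_SLK : MX.SLK_stmt := MX.SLK
theorem x_TPL : MX.TPL_stmt := MX.TPL
theorem x_ZER : MX.ZER_stmt := MX.ZER aQV4 aQV5
theorem x_CN1 : MX.CN1_stmt := MX.CN1 aQZ3 aQV4 aQE1 aQE2 aQE4
theorem a_RT2 : RT2_stmt := RT2
theorem a_DGH : DGH_stmt := DGH
theorem a_INT : INT_stmt := INT
theorem a_ZCT : ZCT_stmt := ZCT aQV4 aQV5 aQZ3
theorem a_STB : STB_stmt := STB aQV1 a_DGH a_INT a_ZCT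
theorem a_GBD : GBD_stmt := GBD aQV4 aQZ3 aQR1 aQR3
theorem a_BN2 : BN2_stmt := BN2 aQV1 aQV4 aQV5 aQR1 aQR3 x_BSE x_SLK x_TPL
theorem a_BB2 : BB2_stmt := BB2 aQV1 x_ZER a_BN2
theorem a_UC1 : UC1_stmt := UC1 x_CN1 x_TPL
theorem a_UCN : UCN_stmt := UCN aQR2 a_DGH a_INT a_ZCT a_STB a_GBD a_BB2 a_UC1 a_RT2 x_CN1
theorem a_EVR : EVR_stmt := EVR
theorem a_FFP : FFP_stmt := FFP
theorem a_GLP : GLP_stmt := GLP
theorem a_SML : SML_stmt := SML
theorem a_EVP : EVP_stmt := EVP aQV1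
theorem a_CHB : CHB_stmt := CHB a_EVR a_FFP a_GLP a_SML a_EVP a_UCN
theorem a_EVL : EVL_stmt := EVL a_EVR
theorem a_FS2 : FS2_stmt := FS2 a_EVR a_CHB a_EVL
theorem a_FRB : FRB_stmt := FRB
theorem a_ACL : ACL_stmt := ACL
theorem a_LFT : LFT_stmt := LFT
theorem a_LIF : LIF_stmt := LIF
theorem a_IRR : IRR_stmt := IRR
theorem a_NUL : NUL_stmt := NUL
theorem a_SAT : SAT_stmt := SAT
theorem a_CLB : CLB_stmt := CLB
theorem a_ACC : ACC_stmt := ACC
theorem a_GC1 : GC1_stmt := GC1 a_ACL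
theorem a_GC2 : GC2_stmt := GC2 a_ACL
theorem a_PRE : PRE_stmt := PRE
theorem a_PRS : PRS_stmt := PRS a_ACL a_EVR a_GC1 a_GC2 a_PRE
theorem a_IDN : IDN_stmt := IDN a_EVR
theorem a_FS1 : FS1_stmt := FS1 a_ACL a_EVR a_LFT a_LIF a_IRR a_NUL
theorem a_FSX : FSX_stmt := FSX a_FRB a_PRS a_IDN a_FS1 a_FS2
theorem a_EXT : EXT_stmt := EXT a_CLB a_ACC a_SAT a_FSX
theorem a_INV : INV_stmt := INV a_ACL
theorem a_BKX : BKX_stmt := BKX a_INV a_EXT
theorem a_INI : INI_stmt := INI a_CLB a_ACC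
theorem a_REL : REL_stmt := REL
theorem a_LOS : LOS_stmt := LOS
theorem a_BFE : BFE_stmt := BFE a_EXT a_BKX
theorem a_TRN : TRN_stmt := TRN a_FRB a_LOS a_BFE a_INI
theorem a_EMB : EMB_stmt := EMB
theorem a_DEF : DEF_stmt := DEF
theorem a_DSG : DSG_stmt := DSG
theorem a_DCT : DCT_stmt := DCT
theorem a_FIN : FIN_stmt := FIN a_REL a_TRN a_EMB a_DEF a_DSG a_DCT

end Pool.Agent.helper70.QSD
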