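import Pool.Agent.helper19.MX.SpecC
import Mathlib.Algebra.CharP.Two
import Mathlib.ModelTheory.Algebra.Ring.Basic
import Mathlib.ModelTheory.Semantics
import Mathlib.Order.Filter.FilterProduct
import Mathlib.Order.Filter.Ultrafilter.Defs

/-!
# Project qsd (MP_7a3aac_co): no first-order definable q-Steiner systems `S_2[2,3,n]`

THEOREM. For every formula `θ(u, v, w, x_1 .. x_r)` of the language of rings and every `λ` not divisible by 7 there is
`n₀` such that for all `n ≥ n₀` with `n = 1 mod 6`, `K` the field with `2^n` elements and all parameters `a` in `K`: the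
set of the three-dimensional `F_2`-subspaces `<u, v, w>` of `K` with `θ(u, v, w, a)` is not a `2-(n,3,λ;2)` subspace design
(`λ = 1`: not an `S_2[2,3,n]`).

PROOF. Let `K_N` be the field with `2^N` elements, inside `kk`, an algebraic closure of `F_2`.
(1) TRANSFER (TRN). For every formula `φ(x_1 .. x_r)` there are `n₀`, `L` such that for `n ≥ n₀`, `L | m + 1`, `a ∈ K_n`:
`K_n ⊨ φ(a)` iff `K_{nm} ⊨ φ(a)`. Suppose not: counterexamples `(n_j, m_j, a_j)` with `n_j ≥ j`, `j! | m_j + 1`. `KS` = ultrapower of `kk` over a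
nonprincipal ultrafilter on the natural numbers, `Φ`, `Φ'` the automorphisms of `KS` given by `x_j ↦ x_j^(2^(n_j))` and
`x_j ↦ x_j^(2^(n_j m_j))`. By the theorem of Łoś (LOS) it is enough to show that the fixed fields of `Φ` and `Φ'` satisfy the same formulas with
parameters `a = [a_j]`. Positions (`Pos`): a countable subfield `A` of `KS`, relatively algebraically closed, `Φ`-stable, with finite `Φ`-orbits, and a
field homomorphism `f : A → KS` with `Φ'(f(Φ x)) = f x`. The initial position (INI): `A` = algebraic closure of `F_2(a)` in `KS`, `f` = inclusion: if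
`Φ^e x = x` then `Φ' Φ x = x` because `e | m_j + 1`. EXTENSION (EX1): for a position and `y` with `Φ y = y` there is a position
extending it whose field contains `y`. The situation is symmetric in `(A, Φ)` and `(f(A), Φ')` (INV), so back and forth (BFE) gives the
equivalence of all formulas.
(2) EXTENSION. Let `y ∉ A`, `L` the algebraic closure of `A(y)` in `KS`. By saturation (SAT) it is enough to find for every finite subset `E` of
`L` and almost all `j` a map `χ : E → kk` satisfying the finitely many conditions (`CND`): additive, multiplicative, `χ(x) = f(x)_j` on `A`,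
`χ(Φ x)^(2^(N'_j)) = χ(x)`. Replace `y` by `y₁`, `y₁^(2^J) = y` (GC1), so that `E` lies in a finite Galois extension of `A(y₁)`, stable under `Φ` (GC2),
generated by `z` with a monic irreducible equation `P(y₁, z) = 0` over `A[y₁]` (PRE). The elements of `E`, the conjugates of `z` and `Φ z` are
polynomials in `y₁, z` divided by `h(y₁)`; all relations are congruences modulo `P` (PRS, IDN). Apply `f` to the coefficients (`P` stays irreducible,
NUL) and pass to the index `j` (LIF, IRR, FS1): a Galois extension `F_j` of `kk(t)` with group of order `m`, and `Φ` gives an automorphism `α` of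
`F_j` fixing `t` and acting on `kk` as the inverse of the Frobenius `c ↦ c^(2^(N'_j))`.
(3) CHEBOTAREV (UCN, CHB), uniformly in all function fields of bounded degree: if `N'_j` is large there is a place `P` of `F_j`, not in the bad set, with
`ord_P(α f) = ord_P(f)`; the values `c`, `b` of `t`, `z` at `P` satisfy `c^(2^(N'_j)) = c` and `α z (P)^(2^(N'_j)) = b`; `χ(x)` = the value of `x` (EVL, FS2). UCN is the
argument of Bombieri and Stepanov (BN2, BB2: at most `q + C sqrt q` places in each class; the places over `F_q` are `m q - O(1)` many and are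
distributed over `m` classes), with a bound for the genus (GBD).
(4) DESIGNS. `being a design with blocks defined by θ` implies a first-order property of `K_n` (DSG, DEF): every independent pair `u, v` has exactly
`4 λ` elements `w` with `<u, v, w>` a block. Transfer it to `K_N`, `N = n m`, `m = -1 mod 6 L`, `N = 5 mod 6`. There the map
`(u, v, w) ↦ (v, w, u + v)` has order 7 and no fixed points on the `4 λ (2^N - 1)(2^N - 2)` triples, so `7 | 4 λ (2^N - 1)(2^N - 2) = 24 λ = 3 λ mod 7` (DCT).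

Rules: file `Pool/Agent/<seat>/QSD/XX.lean`, `import Pool.Agent.helper70.QSD.SpecA` (B, C, D), `namespace Pool.Agent.helper70.QSD`,
`theorem XX (h : YY_stmt) ... : XX_stmt` (the hypotheses listed in the lock note, in this order). Auxiliary lemmas prefixed `XX_`. No double
quotes, no `convert`, no `congr!`.
-/

set_option linter.unusedVariables false

namespace Pool.Agent.helper70.QSD

open Pool.Agent.helper53.AU
open scoped Classical IntermediateField Polynomial
open FirstOrder

noncomputable section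

/-- `α` acts on the constants as the inverse of `c ↦ c^q` -/
def InvFr (k : Type) {F : Type} [Field k] [Field F] [Algebra k F] (q : ℕ) (α : F ≃+* F) : Prop :=
  ∀ c : k, ∃ c' : k, α (algebraMap k F c) = algebraMap k F c' ∧ c' ^ q = c

/-- the value `G(s, z)` of a polynomial in two variables (inner variable `s`, outer variable `z`) -/
def ev {k F : Type} [CommRing k] [CommRing F] [Algebra k F] (s z : F) (G : k[X][X]) : F :=
  Polynomial.eval₂ ((Polynomial.aeval s : k[X] →ₐ[k] F) : k[X] →+* F) z G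

/-- `h^M Q(t, G / h)` -/
def hcomp {k : Type} [CommRing k] (Q G : k[X][X]) (h : k[X]) (M : ℕ) : k[X][X] :=
  ∑ l ∈ Finset.range (M + 1), Polynomial.C (Q.coeff l) * G ^ l * Polynomial.C h ^ (M - l)

/-- coefficientwise application of a ring homomorphism -/
abbrev mp2 {k k' : Type} [CommRing k] [CommRing k'] (σ : k →+* k') (G : k[X][X]) : k'[X][X] :=
  G.map (Polynomial.mapRingHom σ)

/-- a Galois extension `F = k(s, z)` of `k(s)`, `z` integral with an equation of degree at most `d` in both variables -/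
structure Cov (d : ℕ) (k F : Type) [Field k] [Field F] [Algebra k F] (s z : F) : Prop where
  ff : IsFF k F
  tr : Transcendental k s
  gal : IsGalois k⟮s⟯ F
  gen : IntermediateField.adjoin k⟮s⟯ ({z} : Set F) = ⊤
  eq : ∃ a : k[X][X], a.Monic ∧ a.natDegree ≤ d ∧ (∀ i, (a.coeff i).natDegree ≤ d) ∧ ev s z a = 0

/-! ## The ultrapower -/

/-- the algebraic closure of the field with two elements -/
abbrev kk : Type := AlgebraicClosure (ZMod 2)

/-- a nonprincipal ultrafilter on the natural numbers -/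
abbrev UU : Ultrafilter ℕ := Filter.hyperfilter ℕ

/-- the ultrapower of `kk` -/
abbrev KS : Type := Filter.Germ (UU : Filter ℕ) kk

/-- the projection from the sequences to the ultrapower -/
abbrev pr : (ℕ → kk) →+* KS := Filter.Germ.coeRingHom (UU : Filter ℕ)

/-- the evaluation of the sequences at `j` -/
abbrev ej (j : ℕ) : (ℕ → kk) →+* kk := Pi.evalRingHom (fun _ : ℕ => kk) j

/-- `Φ` is the automorphism of the ultrapower given by `x_j ↦ x_j^(2^(N j))` -/
def IsFr (N : ℕ → ℕ) (Φ : KS ≃+* KS) : Prop :=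
  ∀ x : ℕ → kk, Φ (pr x) = pr fun j => x j ^ 2 ^ N j

/-- a countable relatively algebraically closed subfield of `KS`, stable under `Φ`, with finite orbits -/
structure Good (Φ : KS ≃+* KS) (A : Subfield KS) : Prop where
  ctb : Countable A
  acl : ∀ x : KS, IsAlgebraic A x → x ∈ A
  orb : ∀ x ∈ A, ∃ e : ℕ, 1 ≤ e ∧ (⇑Φ)^[e] x = x
  stb : ∀ x ∈ A, Φ x ∈ A

/-- a position of the back and forth game -/
structure Pos (Φ Φ' : KS ≃+* KS) (A : Subfield KS) (f : A →+* KS) : Prop where
  good : Good Φ A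
  cmp : ∀ (x : KS) (hx : x ∈ A) (hx' : Φ x ∈ A), Φ' (f ⟨Φ x, hx'⟩) = f ⟨x, hx⟩

/-- presentation, over `A[y₁]`, of the elements of the finite set `E`, of the conjugates `Gr i / h` of `z` and of `Φ z = GΦ / h` -/
structure Pack (Φ : KS ≃+* KS) (A : Subfield KS) (E : Finset KS) (y₁ z : KS) (m : ℕ) (P : A[X][X])
    (h : A[X]) (Gr : Fin m → A[X][X]) (GΦ : A[X][X]) (Gx : KS → A[X][X]) : Prop where
  tr : Transcendental A y₁
  fix : Φ y₁ = y₁
  mon : P.Monic
  irr : Irreducible P
  deg : P.natDegree = m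
  hne : h ≠ 0
  ker : ∀ G : A[X][X], ev y₁ z G = 0 ↔ P ∣ G
  rt : ∀ i, P ∣ hcomp P (Gr i) h m
  dist : ∀ i j, i ≠ j → ¬ P ∣ Gr i - Gr j
  phi : ev y₁ z GΦ = Φ z * Polynomial.aeval y₁ h
  elt : ∀ x ∈ E, ev y₁ z (Gx x) = x * Polynomial.aeval y₁ h

/-- the congruences satisfied by a presentation; `ΦA` is the restriction of `Φ` to `A` -/
structure Cong (Φ : KS ≃+* KS) (A : Subfield KS) (E : Finset KS) (m : ℕ) (P : A[X][X])
    (h : A[X]) (GΦ : A[X][X]) (Gx : KS → A[X][X]) (ΦA : A →+* A) : Prop where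
  res : ∀ x : A, (ΦA x : KS) = Φ x
  frz : P ∣ hcomp (mp2 ΦA P) GΦ h m
  cst : ∀ x ∈ E, ∀ hx : x ∈ A, P ∣ Gx x - Polynomial.C (Polynomial.C ⟨x, hx⟩ * h)
  add : ∀ x ∈ E, ∀ x' ∈ E, x + x' ∈ E → P ∣ Gx (x + x') - (Gx x + Gx x')
  mul : ∀ x ∈ E, ∀ x' ∈ E, x * x' ∈ E → P ∣ Polynomial.C h * Gx (x * x') - Gx x * Gx x'
  fro : ∀ x ∈ E, Φ x ∈ E → ∀ M : ℕ, (Gx x).natDegree ≤ M →
    P ∣ Polynomial.C h * hcomp (mp2 ΦA (Gx x)) GΦ h M -
      Polynomial.C (h.map ΦA) * Polynomial.C h ^ M * Gx (Φ x)

/-- the same data over `kk` (at one index): `A` a set of constants with the values `cst`, `σ` the inverse of the Frobenius -/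
structure PackJ (d m : ℕ) (σ : kk ≃+* kk) (Φ : KS ≃+* KS) (A : Set KS) (E : Finset KS) (cst : KS → kk)
    (P : kk[X][X]) (h : kk[X]) (Gr : Fin m → kk[X][X]) (G : kk[X][X]) (Gx : KS → kk[X][X]) : Prop where
  mon : P.Monic
  irr : Irreducible P
  deg : P.natDegree = m
  dm : m ≤ d
  dP : ∀ i, (P.coeff i).natDegree ≤ d
  hne : h ≠ 0
  dh : h.natDegree ≤ d
  rt : ∀ i, P ∣ hcomp P (Gr i) h m
  dist : ∀ i j, i ≠ j → ¬ P ∣ Gr i - Gr j
  frz : P ∣ hcomp (mp2 (σ : kk →+* kk) P) G h m
  cons : ∀ x ∈ E, x ∈ A → P ∣ Gx x - Polynomial.C (Polynomial.C (cst x) * h)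
  add : ∀ x ∈ E, ∀ x' ∈ E, x + x' ∈ E → P ∣ Gx (x + x') - (Gx x + Gx x')
  mul : ∀ x ∈ E, ∀ x' ∈ E, x * x' ∈ E → P ∣ Polynomial.C h * Gx (x * x') - Gx x * Gx x'
  fro : ∀ x ∈ E, Φ x ∈ E → ∃ M : ℕ, (Gx x).natDegree ≤ M ∧
    P ∣ Polynomial.C h * hcomp (mp2 (σ : kk →+* kk) (Gx x)) G h M -
      Polynomial.C (h.map (σ : kk →+* kk)) * Polynomial.C h ^ M * Gx (Φ x)

/-- the conditions on the approximate homomorphism `χ` at one index (`q` = the power of the Frobenius) -/
def CND (Φ : KS ≃+* KS) (A : Set KS) (E : Finset KS) (cst : KS → kk) (q : ℕ) (χ : KS → kk) : Prop :=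
  (∀ x ∈ E, x ∈ A → χ x = cst x) ∧
  (∀ x ∈ E, ∀ x' ∈ E, x + x' ∈ E → χ (x + x') = χ x + χ x') ∧
  (∀ x ∈ E, ∀ x' ∈ E, x * x' ∈ E → χ (x * x') = χ x * χ x') ∧
  (∀ x ∈ E, Φ x ∈ E → χ (Φ x) ^ q = χ x)

/-! ## Formulas relative to a subset of a field -/

/-- the value of a term of the language of rings in a field -/
def tv {Ω : Type} [Field Ω] {α : Type} (t : Language.ring.Term α) (v : α → Ω) : Ω :=
  letI := Ring.compatibleRingOfRing Ω
  t.realize v

/-- truth of a formula of the language of rings, all quantifiers relativised to the subset `S` -/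
def RZ {Ω : Type} [Field Ω] (S : Set Ω) : ∀ {α : Type} {n : ℕ}, Language.ring.BoundedFormula α n →
    (α → Ω) → (Fin n → Ω) → Prop
  | _, _, .falsum, _, _ => False
  | _, _, .equal t₁ t₂, v, xs => tv t₁ (Sum.elim v xs) = tv t₂ (Sum.elim v xs)
  | _, _, .rel _ _, _, _ => False
  | _, _, .imp φ ψ, v, xs => RZ S φ v xs → RZ S ψ v xs
  | _, _, .all φ, v, xs => ∀ x ∈ S, RZ S φ v (Fin.snoc xs x)

/-! ## Designs -/

/-- `u, v, w` are independent over the field with two elements -/
def Ind3 {K : Type} [AddCommGroup K] (u v w : K) : Prop :=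
  u ≠ 0 ∧ v ≠ 0 ∧ u ≠ v ∧ w ≠ 0 ∧ w ≠ u ∧ w ≠ v ∧ w ≠ u + v

/-- `x` is a sum of some of `u, v, w` -/
def Sp3 {K : Type} [AddCommGroup K] (u v w x : K) : Prop :=
  x = 0 ∨ x = u ∨ x = v ∨ x = w ∨ x = u + v ∨ x = u + w ∨ x = v + w ∨ x = u + v + w

/-- some basis `u', v', w'` of `<u, v, w>` satisfies `θ(u', v', w', a)` -/
def Blk3 {K : Type} [Field K] [Ring.CompatibleRing K] {r : ℕ}
    (θ : Language.ring.Formula (Fin 3 ⊕ Fin r)) (a : Fin r → K) (u v w : K) : Prop :=
  ∃ u' v' w' : K, Sp3 u v w u' ∧ Sp3 u v w v' ∧ Sp3 u v w w' ∧ Ind3 u' v' w' ∧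
    θ.Realize (Sum.elim ![u', v', w'] a)

/-- every pair `u, v` of independent elements has exactly `4 lam` elements `w`, independent of `u, v`, with `<u, v, w>` a block -/
def Reg4 {K : Type} [Field K] [Ring.CompatibleRing K] {r : ℕ}
    (θ : Language.ring.Formula (Fin 3 ⊕ Fin r)) (a : Fin r → K) (lam : ℕ) : Prop :=
  ∀ u v : K, u ≠ 0 → v ≠ 0 → u ≠ v → ∃ W : Finset K, W.card = 4 * lam ∧
    ∀ w : K, w ∈ W ↔ (Ind3 u v w ∧ Blk3 θ a u v w)

/-- the additive subgroups of order 8 (three-dimensional `F_2`-subspaces, for `K` of characteristic 2) which have a basis `u, v, w` with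
`θ(u, v, w, a)` -/
def Blocks {K : Type} [Field K] [Ring.CompatibleRing K] {r : ℕ}
    (θ : Language.ring.Formula (Fin 3 ⊕ Fin r)) (a : Fin r → K) : Set (AddSubgroup K) :=
  {P | Nat.card P = 8 ∧ ∃ u v w : K, P = AddSubgroup.closure {u, v, w} ∧ θ.Realize (Sum.elim ![u, v, w] a)}

/-- a `2-(n,3,lam;2)` subspace design on the `F_2`-space `K`: the blocks are three-dimensional subspaces (additive subgroups of order 8) and every
two-dimensional subspace (additive subgroup of order 4) is contained in exactly `lam` blocks; for `lam = 1` this is a `q`-Steiner system `S_2[2,3,n]`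
(`2^n` the order of `K`) -/
def IsDesign (K : Type) [AddCommGroup K] (B : Set (AddSubgroup K)) (lam : ℕ) : Prop :=
  (∀ P ∈ B, Nat.card P = 8) ∧
    ∀ T : AddSubgroup K, Nat.card T = 4 → {P : AddSubgroup K | P ∈ B ∧ T ≤ P}.ncard = lam

end

end Pool.Agent.helper70.QSD
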