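import Pool.Agent.helper70.QSD.Defs

/-!
# Project qsd, block A: a uniform Chebotarev theorem for Galois extensions of `k(s)` of bounded degree

Rules in `Defs.lean`. API of places in `Pool/Agent/helper87/AU/GDefs.lean` (`Place.Ge`, `ord_mul`, `ord_add_eq`, ...), action of the
automorphisms in `GDefs2.lean`. Hypotheses `QV1_stmt` ... are the proved statements of project au (`helper87/AU/SpecQ1.lean`, `SpecQ2.lean`),
`MX.BSE_stmt` ... those of project mx, block C (`helper19/MX/SpecC.lean`; the files `MX/BSN.lean`, `MX/BSB.lean`, `MX/CNT.lean` of project mx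
may be copied and adapted).
-/

set_option linter.unusedVariables false

namespace Pool.Agent.helper70.QSD

open Pool.Agent.helper53.AU
open scoped Classical IntermediateField Polynomial

noncomputable section

/-- RT2 (short): the roots of `X^(2^N) - X` (separable, derivative `-1`), `N ≥ 1`. (For `N` even this is `MX.RTS_stmt`.) -/
def RT2_stmt : Prop := ∀ (k : Type) [Field k] [IsAlgClosed k] [CharP k 2] (N : ℕ), 1 ≤ N →
  ∃ R : Finset k, R.card = 2 ^ N ∧ ∀ c : k, c ∈ R ↔ c ^ 2 ^ N = c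

/-- DGH (short-medium): degree and group of a cover. Proof: `m = [F : k(s)]`, the degree of `z` over `k(s)`, at most the degree of the monic polynomial `a(s, X)`, which has the root
`z` (and `m ≥ 1`); `1, z, .., z^(m-1)` are independent over `k(s)`, so over the polynomials in `s` (`s` transcendental: `aeval s φ = 0` gives `φ = 0`). The automorphisms with `τ s = s` are the
`k(s)`-automorphisms (they fix `k(s)` pointwise): `m` of them (Galois). -/
def DGH_stmt : Prop := ∀ (d : ℕ) (k F : Type) [Field k] [Field F] [Algebra k F] (s z : F), Cov d k F s z →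
  ∃ m : ℕ, 1 ≤ m ∧ m ≤ d ∧ degx k s = m ∧ Nat.card {τ : F ≃ₐ[k] F // τ s = s} = m ∧
    ∀ φ : Fin m → k[X], ∑ i, Polynomial.aeval s (φ i) * z ^ (i : ℕ) = 0 → ∀ i, φ i = 0

/-- INT (short-medium): poles of an integral element.
Proof: `z^n = - ∑_{i<n} a_i(s) z^i`, `n = deg a ≥ 1` (a monic polynomial of degree 0 is 1). If `ord_P s ≥ 0` all `a_i(s)` are in `Ge 0`; if `ord_P z < 0` then the left side has order `n ord z`, smaller than that
of every term on the right (`≥ i ord z`), contradiction. If `ord_P s = - e < 0`: `a_i(s)` is in `Ge (- d e)` (degree `≤ d`). If `ord z < - d e` then `ord z < 0` and for `i < n`: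
`- d e + i ord z > (i + 1) ord z ≥ n ord z`, the same contradiction. -/
def INT_stmt : Prop := ∀ (k F : Type) [Field k] [Field F] [Algebra k F] (s z : F) (d : ℕ) (a : k[X][X]),
  a.Monic → (∀ i, (a.coeff i).natDegree ≤ d) → ev s z a = 0 → ∀ P : Place k F,
    (P.Ge 0 s → P.Ge 0 z) ∧ P.Ge (-((d : ℤ) * max (-P.ord s) 0)) z

/-- ZCT (short-medium): the number of zeros of a function with controlled poles.
Proof: QV5: `∑ ord_P f = 0` (finite support, QV4), so `#S ≤ ∑_{ord > 0} ord_P f = ∑_{ord < 0} (- ord_P f) ≤ c ∑ max(- ord_P s, 0) = c [F : k(s)]` (QZ3; the support of `max (- ord_P s) 0` is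
finite by QV4; `s ≠ 0`). -/
def ZCT_stmt : Prop := ∀ (k F : Type) [Field k] [IsAlgClosed k] [Field F] [Algebra k F], IsFF k F →
  ∀ s : F, Transcendental k s → ∀ (c : ℕ) (f : F), f ≠ 0 →
    (∀ P : Place k F, P.Ge (-((c : ℤ) * max (-P.ord s) 0)) f) →
    ∀ S : Finset (Place k F), (∀ P ∈ S, P.Ge 1 f) → (S.card : ℤ) ≤ c * degx k s

/-- STB (medium): the number of places over finite `s`-values with a nontrivial stabiliser.
Proof: let `τ ≠ 1`, `τ s = s`. Then `τ z ≠ z` (`F = k(s, z)`). `τ z` satisfies the same equation as `z`, so `f = τ z - z` has poles as in INT (`c = d`). If `P.Ge 0 s` and `τ • P = P` then `z - b ∈ m_P` for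
a constant `b` (INT, QV1) and `τ z - b = τ (z - b)` has the same order (`ge_apply_of_smul_eq`), so `P.Ge 1 f`. By ZCT every `τ` accounts for at most `d m` places of `S`, and there are at most `m` automorphisms `τ`
(DGH; the type has `Nat.card = m ≥ 1`, so it is finite). -/
def STB_stmt : Prop := ∀ (d : ℕ) (k F : Type) [Field k] [IsAlgClosed k] [Field F] [Algebra k F] (s z : F),
  Cov d k F s z → ∀ m : ℕ, degx k s = m → ∀ S : Finset (Place k F),
    (∀ P ∈ S, P.Ge 0 s ∧ ∃ τ : F ≃ₐ[k] F, τ s = s ∧ τ ≠ 1 ∧ τ • P = P) → (S.card : ℤ) ≤ m * (d * m)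

/-- GBD (medium): a bound for the genus.
Proof: `E` = the pole divisor of `s` (`E P = max (- ord_P s) 0`, finite support QV4), `deg E = m` (QZ3). For `r ≥ c` the functions `s^j u_i`, `0 ≤ j ≤ r - c`, `i < m`, are in `L(r E)` (at a pole of `s` of order `e`:
`≥ - j e - c e ≥ - r e`; elsewhere `≥ 0`) and independent over `k`, so `l(r E) ≥ m (r - c + 1)`. If `m = 0` is impossible (`degx ≥ 1`), for large `r` (QR3) `l(r E) = r m + 1 - g`. So
`g ≤ r m + 1 - m (r - c + 1) ≤ m c + 1`. -/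
def GBD_stmt : Prop := ∀ (k F : Type) [Field k] [IsAlgClosed k] [Field F] [Algebra k F], IsFF k F →
  ∀ s : F, Transcendental k s → ∀ m c : ℕ, 1 ≤ m → degx k s = m → ∀ u : Fin m → F,
    (∀ φ : Fin m → k[X], ∑ i, Polynomial.aeval s (φ i) * u i = 0 → ∀ i, φ i = 0) →
    (∀ (i : Fin m) (P : Place k F), P.Ge (-((c : ℤ) * max (-P.ord s) 0)) (u i)) →
    ∀ g : ℕ, IsGenus k F g → g ≤ m * c + 1

/-- BN2 (medium): the auxiliary function, for `q = l l'` (adaptation of `MX.BSN_stmt`, which is the case `l = l'`).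
Proof: `t_j ∈ L((l + 3g + 1) P)`, `j < a`, `a = l((l + 3g + 1) P) ≥ l + 2g + 2` (QR3), with distinct orders (BSE), `P` any place. `P_a`, `P_t` (TPL, for `α` and `τ`): `ord_{P_a}(α f) = ord_P(f)`,
`ord_{P_t}(τ f) = ord_P(f)`. The map `(s_j) ↦ ∑ s_j^l τ(t_j)` from `L((l'-1) P_a)^a` to `L(l (l'-1) P_a + (l + 3g + 1) P_t)` is additive, semilinear for `c ↦ c^l`. The source has dimension
`≥ (l + 2g + 2)(l' - g)` (QR3), the target `≤ l (l' - 1) + l + 3g + 2 = l l' + 3g + 2` (QR1: `l(D) ≤ deg D + 1` for `D ≥ 0`), and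
`(l + 2g + 2)(l' - g) - (l l' + 3g + 2) = (2g + 2) l' - g l - 2g^2 - 5g - 2 ≥ 2 l' - 2g^2 - 5g - 2 > 0` as `l ≤ 2 l'` and `g^2 + 3g + 1 < l'`. SLK gives `(s_j) ≠ 0` in the kernel.
`G = ∑ s_j α(t_j)^(l')` has poles only at `P_a`; a nonzero `s_j` has order between `-(l'-1)` and `0` at `P_a` (it has no other pole: QV5), so the nonzero terms have orders in the disjoint
intervals `[l' o_j - (l' - 1), l' o_j]`, `o_j = ord_P (t_j) ≥ -(l + 3g + 1)` distinct; so `G ≠ 0` and `ord_{P_a} G ≥ -(l' (l + 3g + 1) + l' - 1)`. -/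
def BN2_stmt : Prop := ∀ (p : ℕ) [Fact p.Prime] (k F : Type) [Field k] [IsAlgClosed k] [CharP k p] [Field F] [Algebra k F],
  IsFF k F → ∀ g : ℕ, IsGenus k F g → ∀ n n' l l' : ℕ, l = p ^ n → l' = p ^ n' → l ≤ 2 * l' →
  g ^ 2 + 3 * g + 1 < l' → ∀ (α : F ≃+* F), InvFr k (l * l') α →
  ∀ (τ : F ≃ₐ[k] F), ∃ (Pa Pt : Place k F) (a : ℕ) (s t : Fin a → F),
    (∀ j, s j ∈ Reg Pa) ∧ (∀ j, τ (t j) ∈ Reg Pt) ∧ ∑ j, s j ^ l * τ (t j) = 0 ∧
    ∑ j, s j * α (t j) ^ l' ∈ Reg Pa ∧ ∑ j, s j * α (t j) ^ l' ≠ 0 ∧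
    -((l' : ℤ) * (l + 3 * g + 1) + l' - 1) ≤ Pa.ord (∑ j, s j * α (t j) ^ l')

/-- BB2 (short-medium): the bound (adaptation of `MX.BSB_stmt`).
Proof: BN2, `G = ∑ s_j α(t_j)^(l')`. Let `y ∈ S`, `y ≠ Pa, Pt`, `c_j` the value of `τ(t_j)` at `y` (QV1; regular as `y ≠ Pt`). `ord_y (τ(t_j - c_j)) ≥ 1`, so `ord_y (α(t_j - c_j)) ≥ 1`, `α(t_j) - c_j'` with
`c_j'^(l l') = c_j`; raise to the power `l l'` (additive): `α(t_j)^(l l') - c_j` vanishes at `y`. So `G^l = ∑ s_j^l α(t_j)^(l l')` is congruent to `∑ s_j^l τ(t_j) = 0` at `y`: `G` vanishes at `y`.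
ZER: `#(S \ {Pa, Pt}) ≤ l' (l + 3g + 1) + l' - 1 = l l' + (3g + 2) l' - 1`. -/
def BB2_stmt : Prop := ∀ (p : ℕ) [Fact p.Prime] (k F : Type) [Field k] [IsAlgClosed k] [CharP k p] [Field F] [Algebra k F],
  IsFF k F → ∀ g : ℕ, IsGenus k F g → ∀ n n' l l' : ℕ, l = p ^ n → l' = p ^ n' → l ≤ 2 * l' →
  g ^ 2 + 3 * g + 1 < l' → ∀ (α : F ≃+* F), InvFr k (l * l') α →
  ∀ (τ : F ≃ₐ[k] F) (S : Finset (Place k F)), (∀ y ∈ S, ∀ f : F, y.ord (α f) = y.ord (τ f)) →
    (S.card : ℤ) ≤ (l : ℤ) * l' + (3 * g + 2) * l' + 1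

/-- UC1 (medium): the places over the fixed constants.
Proof: for `c ∈ R` the places over `c` are one orbit of the `m` automorphisms `τ` with `τ s = s` (CN1), with trivial stabilisers (hypothesis): exactly `m` places; places over different `c` are different. `T` = all of them.
`α (s - c) = s - c'` with `c'^q = c = c^q`, so `c' = c` (`q = 2^N`, injectivity of the Frobenius). For `y` over `c` the place `y'` with `y'.ord f = y.ord (α f)` (TPL for `α.symm`: its hypothesis for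
`β = α.symm` is that `α` maps constants to constants) lies over `c` too, so `y' = τ • y` with `τ s = s` (CN1), and `y.ord (α f) = (τ • y).ord f = y.ord (τ⁻¹ f)`; use `τ⁻¹`. -/
def UC1_stmt : Prop := ∀ (k F : Type) [Field k] [IsAlgClosed k] [CharP k 2] [Field F] [Algebra k F], IsFF k F →
  ∀ s : F, Transcendental k s → IsGalois k⟮s⟯ F → ∀ m : ℕ, Nat.card {τ : F ≃ₐ[k] F // τ s = s} = m → 1 ≤ m →
  ∀ (N : ℕ) (α : F ≃+* F), InvFr k (2 ^ N) α → α s = s → ∀ R : Finset k, (∀ c ∈ R, c ^ 2 ^ N = c) →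
    (∀ c ∈ R, ∀ P : Place k F, P.Ge 1 (s - algebraMap k F c) → ∀ τ : F ≃ₐ[k] F, τ s = s → τ • P = P → τ = 1) →
    ∃ T : Finset (Place k F), T.card = m * R.card ∧ (∀ P ∈ T, ∃ c ∈ R, P.Ge 1 (s - algebraMap k F c)) ∧
      ∀ P ∈ T, ∃ τ : F ≃ₐ[k] F, τ s = s ∧ ∀ f : F, P.ord (α f) = P.ord (τ f)

/-- UCN (medium-long): THE UNIFORM CHEBOTAREV THEOREM.
Proof: `m` from DGH, `m ≤ d`. `g` = the genus (QR2); `g ≤ m (d d) + 1 ≤ d^3 + 1` by GBD for `u_i = z^i`, `i < m ≤ d` (`z ∈ Ge (- d max(..))` by INT, so `z^i ∈ Ge (- i d max(..))`). `N` large: `l = 2^(N - N/2)`,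
`l' = 2^(N/2)`, `l l' = 2^N = q`, `l ≤ 2 l'`, `l'` larger than any given function of `d`. `R₀` from RT2 (`q` elements); `R` = the `c ∈ R₀` such that all places over `c` have trivial stabilisers. For
every `c ∈ R₀ \ R` choose a place over `c` with a nontrivial stabiliser: these are different places, so `#(R₀ \ R) ≤ m d m ≤ d^3` (STB; `P.Ge 1 (s - c)` implies `P.Ge 0 s`). `T` from UC1, `#T = m #R ≥ m (q - d^3)`.
Every `P ∈ T` belongs to a class `S_τ = {P : ∀ f, P.ord (α f) = P.ord (τ f)}`, `τ s = s`; `m` classes (the type `{τ // τ s = s}` is finite), and each of the `m - 1` classes with `τ ≠ 1` contains at most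
`q + (3g + 2) l' + 1` elements of `T` (BB2), so class 1 contains at least `m (q - d^3) - (m - 1)(q + (3g+2) l' + 1) ≥ q - m d^3 - m ((3g + 2) l' + 1)` elements. The `P ∈ T` with `ord_P D(s) ≠ 0` lie over the at most `d`
roots `c` of `D` (`D(s) = D(c) + (s - c) (...)`), and over every `c` there are at most `m` places (they are one orbit, CN1; or: they are zeros of `s - c`, ZCT with `c = 1`, at most `m` many): at most `d m` of them. For large `N` there is a
`P ∈ T` of class 1 with `ord_P D(s) = 0`. `P.Ge 0 z`: INT. -/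
def UCN_stmt : Prop := ∀ d : ℕ, ∃ N₀ : ℕ, ∀ N : ℕ, N₀ ≤ N → ∀ (k F : Type) [Field k] [IsAlgClosed k] [CharP k 2]
  [Field F] [Algebra k F] (s z : F), Cov d k F s z → ∀ α : F ≃+* F, InvFr k (2 ^ N) α → α s = s →
    ∀ D : k[X], D ≠ 0 → D.natDegree ≤ d → ∃ P : Place k F, P.Ge 0 s ∧ P.Ge 0 z ∧
      P.ord (Polynomial.aeval s D) = 0 ∧ ∀ f : F, P.ord (α f) = P.ord f

end

end Pool.Agent.helper70.QSD
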