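import Pool.Agent.helper70.QSD.SpecA

/-!
# Project qsd, block B: covers given by a polynomial; Chebotarev for polynomials over `k[t]`

Rules in `Defs.lean`.
-/

set_option linter.unusedVariables false

namespace Pool.Agent.helper70.QSD

open Pool.Agent.helper53.AU
open scoped Classical IntermediateField Polynomial

noncomputable section

/-- EVR (short): rules for `ev` and `hcomp`: `ev s z` is a ring homomorphism on the polynomials in two variables; `ev s w (hcomp Q G h M) = h(s)^M Q(s, G(s,w)/h(s))`, for `M ≥ deg Q` and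
`h(s) ≠ 0`; `mp2` and `hcomp` commute. (The last part for any two commutative rings; `Polynomial.eval₂_mul`, `Polynomial.eval₂_eq_sum_range'`, `Polynomial.coeff_map`.) -/
def EVR_stmt : Prop :=
  (∀ (k F : Type) [CommRing k] [CommRing F] [Algebra k F] (s z : F),
    (∀ G H : k[X][X], ev s z (G + H) = ev s z G + ev s z H) ∧ (∀ G H : k[X][X], ev s z (G - H) = ev s z G - ev s z H) ∧
    (∀ G H : k[X][X], ev s z (G * H) = ev s z G * ev s z H) ∧ (∀ h : k[X], ev s z (Polynomial.C h) = Polynomial.aeval s h) ∧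
    ev s z (Polynomial.X : k[X][X]) = z ∧ (∀ c : k, ev s z (Polynomial.C (Polynomial.C c)) = algebraMap k F c)) ∧
  (∀ (k F : Type) [Field k] [Field F] [Algebra k F] (s w : F) (Q G : k[X][X]) (h : k[X]) (M : ℕ), Q.natDegree ≤ M →
    Polynomial.aeval s h ≠ 0 → ev s w (hcomp Q G h M) = Polynomial.aeval s h ^ M * ev s (ev s w G / Polynomial.aeval s h) Q) ∧
  (∀ (k k' : Type) [CommRing k] [CommRing k'] (σ : k →+* k') (Q G : k[X][X]) (h : k[X]) (M : ℕ),
    mp2 σ (hcomp Q G h M) = hcomp (mp2 σ Q) (mp2 σ G) (h.map σ) M)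

/-- FFP (medium): the function field of a monic irreducible polynomial.
Proof: `P` is irreducible over `RatFunc k` (or the fraction field of `k[X]`) by the lemma of Gauss (`Polynomial.Monic.irreducible_iff_irreducible_map_fraction_map`), `F = AdjoinRoot`, `s` the image of the variable, `z` the root. `ev s z G` is the image of
`G`; it is 0 iff `P` divides `G` over the fraction field, iff `P` divides `G` (`P` monic: `Polynomial.map_dvd_map`, or the remainder `G %ₘ P`). `F` is finite over the fraction field `= k(s)`. Every element of `F` is a polynomial in `z`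
over `k(s)`; common denominator. -/
def FFP_stmt : Prop := ∀ (k : Type) [Field k] (P : k[X][X]), P.Monic → Irreducible P →
  ∃ (F : Type) (_ : Field F) (_ : Algebra k F) (s z : F), IsFF k F ∧ Transcendental k s ∧
    FiniteDimensional k⟮s⟯ F ∧ IntermediateField.adjoin k⟮s⟯ ({z} : Set F) = ⊤ ∧
    (∀ G : k[X][X], ev s z G = 0 ↔ P ∣ G) ∧
    ∀ f : F, ∃ (G : k[X][X]) (h : k[X]), h ≠ 0 ∧ f * Polynomial.aeval s h = ev s z G

/-- GLP (short-medium): a field generated by a root of a polynomial with as many roots as its degree is Galois.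
Proof: `P(s, X)` is monic of degree `m` over `k(s)` with `m` different roots in `F`: `P(s, X) = ∏ (X - r_i)` over `F`, separable; `F = k(s)(z)` is generated by its root `z` (so by all roots): the splitting field of a separable
polynomial (`IsGalois.of_separable_splitting_field`). -/
def GLP_stmt : Prop := ∀ (k F : Type) [Field k] [Field F] [Algebra k F] (s z : F) (P : k[X][X]) (m : ℕ),
  P.Monic → P.natDegree = m → IntermediateField.adjoin k⟮s⟯ ({z} : Set F) = ⊤ → ev s z P = 0 →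
  ∀ r : Fin m → F, Function.Injective r → (∀ i, ev s (r i) P = 0) → IsGalois k⟮s⟯ F

/-- SML (medium): the semilinear automorphism.
Proof: the ring homomorphism `G ↦ ev s w (mp2 σ G)` from `k[X][X]` to `F` kills `P`, so it factors through `k[X][X] / (P) ≅` the subring `B = {ev s z G}` of `F` (`hker`). It gives `α₀ : B → F` with `α₀ s = s`, `α₀ z = w`, `α₀ c = σ c`.
`α₀` is injective: `B` is integral over `k[s]` (`P` monic) and a domain, and `α₀` is injective on `k[s]` (`s` transcendental): if `0 ≠ b ∈ B`, the norm, or the constant term `a₀(s) ≠ 0` of a relation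
`b^n + .. + a₀(s) = 0` of least degree, gives `α₀ b ≠ 0`. So `α₀` extends to the fraction field `F` of `B` (`hfrac`): `α : F → F`. It maps `k(s)` onto `k(s)` (`σ` onto), and `F` has the same finite dimension over `k(s)` as over
`α(k(s)) = k(s)` for `α(F)`: so `α(F) = F`. -/
def SML_stmt : Prop := ∀ (k F : Type) [Field k] [Field F] [Algebra k F] (s z w : F) (P : k[X][X]) (σ : k ≃+* k),
  P.Monic → Transcendental k s → FiniteDimensional k⟮s⟯ F → (∀ G : k[X][X], ev s z G = 0 ↔ P ∣ G) →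
  (∀ f : F, ∃ (G : k[X][X]) (h : k[X]), h ≠ 0 ∧ f * Polynomial.aeval s h = ev s z G) →
  ev s w (mp2 (σ : k →+* k) P) = 0 →
  ∃ α : F ≃+* F, (∀ c : k, α (algebraMap k F c) = algebraMap k F (σ c)) ∧ α s = s ∧ α z = w

/-- EVP (short-medium): values at an invariant place.
Proof: `c`, `b` = the values of `s`, `z` (QV1). `ev s z G - G(c, b)` is in the maximal ideal: `G ↦` the residue of `ev s z G` is a ring homomorphism, as `G ↦ ev c b G`; or: `G(X, Y) - G(c, b)` is a combination of `X - c` and `Y - b`.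
`α s = s`: `α (s - c) = s - c'`, `c'^q = c`, has the same order as `s - c`, so `c' = c` (uniqueness of the value) and `c^q = c`. `α (z - b) = α z - b'`, `b'^q = b`: `b'` is the value of `α z`; from `α z h(s) = G(s, z)`: `b' h(c) = G(c, b)`. -/
def EVP_stmt : Prop := ∀ (k F : Type) [Field k] [IsAlgClosed k] [Field F] [Algebra k F], IsFF k F →
  ∀ (P₀ : Place k F) (s z : F), P₀.Ge 0 s → P₀.Ge 0 z → ∃ c b : k, P₀.Ge 1 (s - algebraMap k F c) ∧
    (∀ G : k[X][X], P₀.Ge 1 (ev s z G - algebraMap k F (ev c b G))) ∧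
    ∀ (q : ℕ) (α : F ≃+* F), InvFr k q α → (∀ f : F, P₀.ord (α f) = P₀.ord f) → α s = s →
      c ^ q = c ∧ ∀ (G : k[X][X]) (h : k[X]), α z * Polynomial.aeval s h = ev s z G →
        Polynomial.eval c h ≠ 0 → (ev c b G / Polynomial.eval c h) ^ q = b

/-- CHB (medium): CHEBOTAREV FOR POLYNOMIALS.
Proof: `F`, `s`, `z` from FFP; `h(s) ≠ 0`. `r_i = ev s z (Gr i) / h(s)`: by EVR and `P ∣ hcomp P (Gr i) h m`: `ev s (r_i) P = 0`; different: `P ∤ Gr i - Gr j`. GLP: Galois. `Cov d k F s z`. `w = ev s z G / h(s)` is a root of `mp2 σ P` (EVR); SML gives `α`, and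
`InvFr k (2^N) α` (`c' = σ c`). UCN for `D` gives the place, EVP the values; `ev c b P = 0` since `ev s z P = 0` (the constant `ev c b P` has positive order only if it is 0); `D(c) ≠ 0`: `ord (D(s)) = 0` and `D(s) - D(c)` has positive order (EVP for
`C D`); `h ∣ D`, so `h(c) ≠ 0`; `α z h(s) = ev s z G`. -/
def CHB_stmt : Prop := ∀ d : ℕ, ∃ N₀ : ℕ, ∀ N : ℕ, N₀ ≤ N → ∀ (k : Type) [Field k] [IsAlgClosed k] [CharP k 2]
  (σ : k ≃+* k), (∀ c : k, σ c ^ 2 ^ N = c) → ∀ (P : k[X][X]) (m : ℕ), P.Monic → Irreducible P → P.natDegree = m →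
    m ≤ d → (∀ i, (P.coeff i).natDegree ≤ d) → ∀ h D : k[X], D ≠ 0 → D.natDegree ≤ d → h ∣ D →
    ∀ Gr : Fin m → k[X][X], (∀ i, P ∣ hcomp P (Gr i) h m) → (∀ i j, i ≠ j → ¬ P ∣ Gr i - Gr j) →
    ∀ G : k[X][X], P ∣ hcomp (mp2 (σ : k →+* k) P) G h m →
      ∃ c b : k, c ^ 2 ^ N = c ∧ ev c b P = 0 ∧ Polynomial.eval c D ≠ 0 ∧
        (ev c b G / Polynomial.eval c h) ^ 2 ^ N = b

/-- EVL (short-medium): the Frobenius condition at one index.
Proof: EVR with `k = F = kk` (`aeval c = eval c`). Put `w = ev c b G / h(c)`, `w^q = b`. The divisibility and `ev c b P = 0` give `h(c) h(c)^M (σ Q)(c, w) = (σ h)(c) h(c)^M G'(c, b)`, so `(σ Q)(c, w) = (σ h)(c) G'(c, b) / h(c)`. Raise to the power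
`q = 2^N`: `((σ Q)(c, w))^q = Q(c^q, w^q) = Q(c, b)` (additivity of the power, `(σ a)^q = a`), `((σ h)(c))^q = h(c^q) = h(c)`. So `Q(c, b) = h(c) (G'(c, b) / h(c))^q`. -/
def EVL_stmt : Prop := ∀ (N : ℕ) (σ : kk ≃+* kk), (∀ c : kk, σ c ^ 2 ^ N = c) → ∀ (P : kk[X][X]) (h : kk[X]) (G Q G' : kk[X][X])
  (M : ℕ) (c b : kk), c ^ 2 ^ N = c → ev c b P = 0 → Polynomial.eval c h ≠ 0 →
  (ev c b G / Polynomial.eval c h) ^ 2 ^ N = b → Q.natDegree ≤ M →
  P ∣ Polynomial.C h * hcomp (mp2 (σ : kk →+* kk) Q) G h M - Polynomial.C (h.map (σ : kk →+* kk)) * Polynomial.C h ^ M * G' →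
    (ev c b G' / Polynomial.eval c h) ^ 2 ^ N = ev c b Q / Polynomial.eval c h

/-- FS2 (medium): from the data at one index to the map `χ`.
Proof: CHB for `D = h`, `q = 2^N`: `c, b`. `χ x = ev c b (Gx x) / h(c)`. The first three conditions: evaluate the divisibilities at `(c, b)` (`ev c b P = 0`), divide by powers of `h(c)`. The fourth: EVL for `Q = Gx x`, `G' = Gx (Φ x)`. -/
def FS2_stmt : Prop := ∀ d : ℕ, ∃ N₀ : ℕ, ∀ N : ℕ, N₀ ≤ N → ∀ (m : ℕ) (σ : kk ≃+* kk), (∀ c : kk, σ c ^ 2 ^ N = c) →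
  ∀ (Φ : KS ≃+* KS) (A : Set KS) (E : Finset KS) (cst : KS → kk) (P : kk[X][X]) (h : kk[X]) (Gr : Fin m → kk[X][X])
    (G : kk[X][X]) (Gx : KS → kk[X][X]), PackJ d m σ Φ A E cst P h Gr G Gx →
    ∃ χ : KS → kk, CND Φ A E cst (2 ^ N) χ

end

end Pool.Agent.helper70.QSD
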