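import Pool.Agent.helper70.QSD.SpecB

/-!
# Project qsd, block C: the ultrapower, presentations, extension of positions

Rules in `Defs.lean`. `KS` = the ultrapower of `kk` (Mathlib `Filter.Germ`, a field), `pr` = the projection from the ring of sequences
(surjective; `pr x = pr y` iff `∀ᶠ j in UU, x j = y j`: `Filter.Germ.coe_eq`), `ej j` = evaluation at `j`.
-/

set_option linter.unusedVariables false

namespace Pool.Agent.helper70.QSD

open Pool.Agent.helper53.AU
open scoped Classical IntermediateField Polynomial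
open Filter (Tendsto atTop)

noncomputable section

/-! ## The ultrapower -/

/-- FRB (short-medium): the automorphisms. Proof: `kk` is perfect; the iterated Frobenius of `kk` is bijective (`iterateFrobeniusEquiv`); on sequences `x_j ↦ x_j^(2^(N j))` is a ring automorphism of `ℕ → kk`, compatible with
equality almost everywhere in both directions. -/
def FRB_stmt : Prop := (∀ N : ℕ → ℕ, ∃ Φ : KS ≃+* KS, IsFr N Φ) ∧
  ∀ N : ℕ, ∃ σ : kk ≃+* kk, ∀ c : kk, σ c ^ 2 ^ N = c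

/-- ACL (medium): the ultrapower is algebraically closed of characteristic 2.
Proof: `IsAlgClosed.of_exists_root`: a monic irreducible polynomial has degree `n ≥ 1`; lift the coefficients to sequences (leading coefficient 1); at each `j` the polynomial over `kk`, monic of degree `n`, has a root `x_j`;
`pr x` is a root. `2 = 0` in `KS`. -/
def ACL_stmt : Prop := IsAlgClosed KS ∧ CharP KS 2

/-- LFT (short): lifting polynomials to sequences (`pr` is onto; monic polynomials have monic lifts: lift the coefficients below the leading one, `Polynomial.lifts_and_natDegree_eq_and_monic`). -/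
def LFT_stmt : Prop := (∀ h : KS[X], ∃ h' : (ℕ → kk)[X], h'.map pr = h) ∧
  (∀ G : KS[X][X], ∃ G' : (ℕ → kk)[X][X], mp2 pr G' = G) ∧
  ∀ P : KS[X][X], P.Monic → ∃ P' : (ℕ → kk)[X][X], P'.Monic ∧ P'.natDegree = P.natDegree ∧ mp2 pr P' = P

/-- LIF (short-medium): divisibility by a monic polynomial passes to almost all indices, and non-divisibility too.
Proof: `R = G %ₘ P`; `%ₘ` commutes with ring homomorphisms (`Polynomial.map_modByMonic`), and a monic polynomial divides iff the remainder is 0. All (finitely many) coefficients of `mp2 pr R` vanish iff for almost all `j` those of `mp2 (ej j) R` vanish; if some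
coefficient `pr ρ` is not 0 then `ρ j ≠ 0` for almost all `j` (ultrafilter). The last part in the same way. -/
def LIF_stmt : Prop :=
  (∀ P : (ℕ → kk)[X][X], P.Monic → ∀ G : (ℕ → kk)[X][X],
    (mp2 pr P ∣ mp2 pr G → ∀ᶠ j in (UU : Filter ℕ), mp2 (ej j) P ∣ mp2 (ej j) G) ∧
    (¬ mp2 pr P ∣ mp2 pr G → ∀ᶠ j in (UU : Filter ℕ), ¬ mp2 (ej j) P ∣ mp2 (ej j) G)) ∧
  ∀ h : (ℕ → kk)[X], h.map pr ≠ 0 → ∀ᶠ j in (UU : Filter ℕ), h.map (ej j) ≠ 0

/-- IRR (medium): irreducibility passes to almost all indices.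
Proof: suppose not: for almost all `j` `P_j = mp2 (ej j) P` (monic, of degree `m = deg P ≥ 1`: an irreducible monic polynomial is not 1) is reducible: `P_j = A_j B_j`, and we may take `A_j`, `B_j` monic in the outer variable (leading coefficients are units of `kk[X]`,
constants) of degrees `a_j, b_j ≥ 1`, `a_j + b_j = m`; `a_j = a` for almost all `j` (finitely many values). The degrees of the coefficients of `A_j`, `B_j` in the inner variable are bounded by that of `P` (the degree in the inner variable is the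
degree in a polynomial ring over the domain `kk[X]` after exchanging the variables, so it is additive: `Polynomial.Bivariate.swap`). So the `A_j`, `B_j` are the values at `j` of polynomials `A`, `B` over the
sequences, `mp2 pr P = mp2 pr A * mp2 pr B` (finitely many coefficients), of positive degrees: not irreducible. -/
def IRR_stmt : Prop := ∀ P : (ℕ → kk)[X][X], P.Monic → Irreducible (mp2 pr P) →
  ∀ᶠ j in (UU : Filter ℕ), Irreducible (mp2 (ej j) P)

/-- NUL (medium): a monic irreducible polynomial in two variables over an algebraically closed field stays irreducible.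
Proof: if `mp2 f P = U V` with non-units: `U`, `V` may be taken monic (outer variable) of positive degrees. Let `T` be the `A`-subalgebra of `Ω` (via `f`) generated by the finitely many coefficients of `U`, `V`. By the Nullstellensatz (Zariski's lemma: `T` modulo a
maximal ideal is a finite extension of the algebraically closed field, so equal to it) there is a homomorphism `T → A` which is the identity on `A`: applied to the coefficients it gives a factorisation of `P` into monic polynomials of the same degrees. -/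
def NUL_stmt : Prop := ∀ (A Ω : Type) [Field A] [Field Ω] [IsAlgClosed A] (f : A →+* Ω) (P : A[X][X]),
  P.Monic → Irreducible P → Irreducible (mp2 f P)

/-- SAT (short-medium): countable saturation.
Proof: `E_0 ⊆ E_1 ⊆ ...` finite subsets of `Λ` such that every finite subset of `Λ` is contained in some `E_I`. For `j` let `I(j)` be the largest `I ≤ j` such that `C (E_I) j χ` has a solution (if there is none take any `χ_j`), `χ_j` a solution for `E_{I(j)}`. If `E ⊆ E_I`, then the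
`j ≥ I` (almost all, the ultrafilter is nonprincipal) for which `C (E_I) j χ` has a solution satisfy `I(j) ≥ I`, so `C (E_{I(j)}) j (χ_j)`, so `C E j (χ_j)`. -/
def SAT_stmt : Prop := ∀ C : Finset KS → ℕ → (KS → kk) → Prop,
  (∀ (E E' : Finset KS) (j : ℕ) (χ : KS → kk), E ⊆ E' → C E' j χ → C E j χ) →
  ∀ Λ : Set KS, Λ.Countable → (∀ E : Finset KS, (E : Set KS) ⊆ Λ → ∀ᶠ j in (UU : Filter ℕ), ∃ χ : KS → kk, C E j χ) →
    ∃ χ : ℕ → KS → kk, ∀ E : Finset KS, (E : Set KS) ⊆ Λ → ∀ᶠ j in (UU : Filter ℕ), C E j (χ j)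

/-! ## Algebra in the ultrapower -/

/-- CLB (short-medium): generated subfields. Proof: the elements `x` with a finite orbit (`Φ^[e] x = x`, `e ≥ 1`) form a subfield (common multiples), so do the `x` with `Φ x ∈ B`; both contain the generators. A subfield generated by a countable set is countable
(`Subfield.closure` of a countable set, or the cardinality of `IntermediateField.adjoin`). The first part: `(A⟮y⟯).toSubfield` is the closure of `A ∪ {y}`. -/
def CLB_stmt : Prop :=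
  (∀ (Φ : KS ≃+* KS) (A : Subfield KS), Good Φ A → ∀ y : KS, Φ y = y →
    Countable (A⟮y⟯).toSubfield ∧ (∀ x ∈ (A⟮y⟯).toSubfield, ∃ e : ℕ, 1 ≤ e ∧ (⇑Φ)^[e] x = x) ∧
      (∀ x ∈ (A⟮y⟯).toSubfield, Φ x ∈ (A⟮y⟯).toSubfield) ∧ A ≤ (A⟮y⟯).toSubfield ∧ y ∈ (A⟮y⟯).toSubfield) ∧
  ∀ (Φ : KS ≃+* KS) (S : Set KS), S.Countable → (∀ x ∈ S, ∃ e : ℕ, 1 ≤ e ∧ (⇑Φ)^[e] x = x) → (∀ x ∈ S, Φ x ∈ S) →
    Countable (Subfield.closure S) ∧ (∀ x ∈ Subfield.closure S, ∃ e : ℕ, 1 ≤ e ∧ (⇑Φ)^[e] x = x) ∧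
      ∀ x ∈ Subfield.closure S, Φ x ∈ Subfield.closure S

/-- ACC (medium): the relative algebraic closure. Proof: `A` = the elements of `KS` algebraic over `B` (a subfield, relatively algebraically closed by transitivity, countable: countably many polynomials with finitely many roots). Orbits: `x` is a root of `p ≠ 0`
over `B`; some `Φ^[e]`, `e ≥ 1`, fixes all coefficients of `p`, so `Φ^[e]` permutes the finitely many roots of `p`, and `Φ^[e e'] x = x` for some `e' ≥ 1`. `Φ x` is a root of `Φ(p)`, over `B`. -/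
def ACC_stmt : Prop := ∀ (Φ : KS ≃+* KS) (B : Subfield KS), Countable B →
  (∀ x ∈ B, ∃ e : ℕ, 1 ≤ e ∧ (⇑Φ)^[e] x = x) → (∀ x ∈ B, Φ x ∈ B) →
    ∃ A : Subfield KS, Good Φ A ∧ B ≤ A ∧ ∀ x ∈ A, IsAlgebraic B x

/-- GC1 (medium-long): separability after a root extraction.
Proof: characteristic 2 (ACL). For `x ∈ E` some `x^(2^i)` is separable over `M = A⟮y⟯` (the field `M⟮x⟯` is purely inseparable over its separable closure); take one `J` for all `x ∈ E`. `F_J : x ↦ x^(2^J)` is an automorphism of `KS` (algebraically closed,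
so perfect), `y₁ = F_J⁻¹ y`; `Φ y₁ = y₁` since `F_J (Φ y₁) = Φ y = y`. `F_J` maps `A` onto `A` (the roots of elements of `A` are algebraic over `A`) and `A⟮y₁⟯` onto `A⟮y⟯`. If `p` is a separable polynomial over `A⟮y⟯` with root `F_J x`, then
`F_J⁻¹(p)` is a separable polynomial over `A⟮y₁⟯` with root `x`. -/
def GC1_stmt : Prop := ∀ (Φ : KS ≃+* KS) (A : Subfield KS), Good Φ A → ∀ y : KS, Φ y = y →
  ∀ E : Finset KS, (∀ x ∈ E, IsAlgebraic A⟮y⟯ x) →
    ∃ (J : ℕ) (y₁ : KS), y₁ ^ 2 ^ J = y ∧ Φ y₁ = y₁ ∧ ∀ x ∈ E, IsSeparable A⟮y₁⟯ x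

/-- GC2 (medium): a `Φ`-stable finite set of conjugates.
Proof: `M = A⟮y₁⟯`; `Φ` maps `A` onto `A` (stable, finite orbits) and `M` onto `M`. `E'` = the union of the orbits of the elements of `E`, finite; for `x ∈ E'` separable over `M`, `Φ x` is separable over `M` with
`minpoly (Φ x) = Φ (minpoly x)`. `p` = the product of the different minimal polynomials over `M` of the elements of `E'`: monic, separable (different irreducible separable polynomials), `Z` its set of roots; `Φ` permutes the factors, so `Z` is stable. -/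
def GC2_stmt : Prop := ∀ (Φ : KS ≃+* KS) (A : Subfield KS), Good Φ A → ∀ y₁ : KS, Φ y₁ = y₁ →
  ∀ E : Finset KS, (∀ x ∈ E, IsSeparable A⟮y₁⟯ x ∧ ∃ e : ℕ, 1 ≤ e ∧ (⇑Φ)^[e] x = x) →
    ∃ (Z : Finset KS) (p : (A⟮y₁⟯)[X]), E ⊆ Z ∧ (∀ x ∈ Z, Φ x ∈ Z) ∧ p.Monic ∧ p.Separable ∧
      ∀ x : KS, Polynomial.aeval x p = 0 ↔ x ∈ Z

/-- PRE (medium-long): a primitive element with an integral equation.
Proof: `F = A(y, Z)` is the splitting field over `A⟮y⟯` of the separable polynomial `p`: finite Galois. Primitive element theorem: `F = A⟮y⟯(z₀)`; multiplying by a common denominator of the minimal polynomial, `z = d(y) z₀` is integral over `A[y]`. Its minimal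
polynomial over `A⟮y⟯` has coefficients in `A[y] ≅ A[X]` (integrally closed): it is `P(y, X)`, `P` monic, irreducible in `A[X][X]` (a factorisation would give one over `A⟮y⟯`), of degree `m = [F : A⟮y⟯]`. `ev y z G = 0` iff `P(y, X)` divides `G(y, X)` over
`A⟮y⟯` iff `P ∣ G` (`P` monic). Every element of `F` is a polynomial in `z` over `A⟮y⟯ = A(y)`: common denominator. `P(y, X)` has `m` different roots in `F` (Galois). -/
def PRE_stmt : Prop := ∀ (A Ω : Type) [Field A] [Field Ω] [IsAlgClosed Ω] [Algebra A Ω] (y : Ω), Transcendental A y →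
  ∀ (Z : Finset Ω) (p : (A⟮y⟯)[X]), p.Monic → p.Separable → (∀ x : Ω, Polynomial.aeval x p = 0 ↔ x ∈ Z) →
    ∃ (z : Ω) (P : A[X][X]) (m : ℕ), z ∈ IntermediateField.adjoin A (insert y (Z : Set Ω)) ∧ P.Monic ∧ Irreducible P ∧
      P.natDegree = m ∧ (∀ G : A[X][X], ev y z G = 0 ↔ P ∣ G) ∧
      (∀ x ∈ IntermediateField.adjoin A (insert y (Z : Set Ω)), ∃ (G : A[X][X]) (h : A[X]), h ≠ 0 ∧
        x * Polynomial.aeval y h = ev y z G) ∧
      ∃ ρ : Fin m → Ω, Function.Injective ρ ∧ (∀ i, ρ i ∈ IntermediateField.adjoin A (insert y (Z : Set Ω))) ∧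
        ∀ i, ev y (ρ i) P = 0

/-- PRS (medium): the presentation.
Proof: `y₁` from GC1, `y₁ ∉ A` (otherwise `y ∈ A`), so `y₁` is transcendental over `A` (`acl`). `Z, p` from GC2; `z, P, m, ρ` from PRE (`Ω = KS`, ACL), `F = A(y₁, Z)`; `Φ` maps `F` into `F` (`A`, `y₁`, `Z` are stable). The elements `ρ i`, `Φ z`, `x ∈ E ⊆ Z` of `F` have
the form `ev y₁ z G / h'(y₁)`; take the product `h` of all denominators. `ev y₁ z (Gr i) = ρ i h(y₁)`: `P ∣ hcomp P (Gr i) h m` by EVR and `ker`; `ev (Gr i - Gr j) = (ρ i - ρ j) h(y₁) ≠ 0` (`h(y₁) ≠ 0`). -/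
def PRS_stmt : Prop := ∀ (Φ : KS ≃+* KS) (A : Subfield KS), Good Φ A → ∀ y : KS, y ∉ A → Φ y = y →
  ∀ E : Finset KS, (∀ x ∈ E, IsAlgebraic A⟮y⟯ x ∧ ∃ e : ℕ, 1 ≤ e ∧ (⇑Φ)^[e] x = x) →
    ∃ (y₁ z : KS) (m : ℕ) (P : A[X][X]) (h : A[X]) (Gr : Fin m → A[X][X]) (GΦ : A[X][X]) (Gx : KS → A[X][X]),
      Pack Φ A E y₁ z m P h Gr GΦ Gx

/-- IDN (short-medium): the congruences.
Proof: `ΦA` = the restriction of `Φ` to `A` (`stb`). By `ker` a polynomial is divisible by `P` iff `ev y₁ z` of it is 0. Use EVR and `Φ (ev y₁ z G) = ev y₁ (Φ z) (mp2 ΦA G)` (as `Φ y₁ = y₁`), `ev y₁ z GΦ / h(y₁) = Φ z`. `frz`: the value is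
`h(y₁)^m ev y₁ (Φ z) (mp2 ΦA P) = h(y₁)^m Φ (ev y₁ z P) = 0`. `fro`: the first term is `h(y₁)^(M+1) Φ (x h(y₁)) = h(y₁)^(M+1) Φ x (h.map ΦA)(y₁)`, the second `(h.map ΦA)(y₁) h(y₁)^M Φ x h(y₁)`. `cst`, `add`, `mul`: immediate. -/
def IDN_stmt : Prop := ∀ (Φ : KS ≃+* KS) (A : Subfield KS), Good Φ A → ∀ (E : Finset KS) (y₁ z : KS) (m : ℕ)
  (P : A[X][X]) (h : A[X]) (Gr : Fin m → A[X][X]) (GΦ : A[X][X]) (Gx : KS → A[X][X]),
    Pack Φ A E y₁ z m P h Gr GΦ Gx → ∃ ΦA : A →+* A, Cong Φ A E m P h GΦ Gx ΦA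

/-- FS1 (medium-long): passage to the indices.
Proof: apply `f` to the coefficients: `f P` etc. over `KS`; `f P` is monic and irreducible (NUL, `A` is algebraically closed: `KS` is (ACL) and `A` is relatively algebraically closed), the divisibilities are preserved (ring homomorphism), the non-divisibilities
`P ∤ Gr i - Gr j` too (`P` monic: remainders, `Polynomial.map_modByMonic`, `f` injective), `f h ≠ 0`. Lift `f P` (monic lift `P'`), `f h`, `f (Gr i)`, `f GΦ`, `f (Gx x)` to polynomials over the sequences (LFT); lift the constants `f x`, `x ∈ A ∩ E`, by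
`rep (f x)`. Let `Σ` be the ring homomorphism `x_j ↦ σ_j(x_j)` of the sequences: `pr (Σ x) = Φ'⁻¹ (pr x)` (`IsFr`), and `f (ΦA a) = Φ'⁻¹ (f a)` (`cmp`), so `mp2 Σ P'` is a lift of `mp2 f (mp2 ΦA P)`, etc. Now LIF for each of the finitely many divisibilities (over
`KS` by EVR, third part) and non-divisibilities, IRR for `P'`, LIF for `h`; evaluation at `j`: `ej j ∘ Σ = σ_j ∘ ej j`. `d` = a bound for `m`, the degrees of the coefficients of `P'` and of the lift of `h` (evaluation at `j` does not increase degrees, and keeps the degree of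
the monic `P'`). -/
def FS1_stmt : Prop := ∀ (N' : ℕ → ℕ) (Φ Φ' : KS ≃+* KS), IsFr N' Φ' → ∀ (A : Subfield KS) (f : A →+* KS),
  Pos Φ Φ' A f → ∀ (E : Finset KS) (y₁ z : KS) (m : ℕ) (P : A[X][X]) (h : A[X]) (Gr : Fin m → A[X][X])
  (GΦ : A[X][X]) (Gx : KS → A[X][X]) (ΦA : A →+* A), Pack Φ A E y₁ z m P h Gr GΦ Gx →
  Cong Φ A E m P h GΦ Gx ΦA → ∀ rep : KS → ℕ → kk, (∀ x, pr (rep x) = x) →
  ∀ σ : ℕ → kk ≃+* kk, (∀ j c, σ j c ^ 2 ^ N' j = c) → ∃ d : ℕ, ∀ᶠ j in (UU : Filter ℕ),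
    ∃ (P_ : kk[X][X]) (h_ : kk[X]) (Gr_ : Fin m → kk[X][X]) (G_ : kk[X][X]) (Gx_ : KS → kk[X][X]),
      PackJ d m (σ j) Φ A E (fun x => if hx : x ∈ A then rep (f ⟨x, hx⟩) j else 0) P_ h_ Gr_ G_ Gx_

/-- FSX (short-medium): finite satisfiability. Proof: PRS, IDN, FS1 (with `σ_j` from FRB) give `d`; FS2 gives `N₀`; `N' j ≥ N₀` for almost all `j` (the ultrafilter is nonprincipal). -/
def FSX_stmt : Prop := ∀ (N' : ℕ → ℕ) (Φ Φ' : KS ≃+* KS), IsFr N' Φ' → Tendsto N' atTop atTop →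
  ∀ (A : Subfield KS) (f : A →+* KS), Pos Φ Φ' A f → ∀ y : KS, y ∉ A → Φ y = y →
  ∀ rep : KS → ℕ → kk, (∀ x, pr (rep x) = x) → ∀ E : Finset KS,
    (∀ x ∈ E, IsAlgebraic A⟮y⟯ x ∧ ∃ e : ℕ, 1 ≤ e ∧ (⇑Φ)^[e] x = x) → ∀ᶠ j in (UU : Filter ℕ),
      ∃ χ : KS → kk, CND Φ A E (fun x => if hx : x ∈ A then rep (f ⟨x, hx⟩) j else 0) (2 ^ N' j) χ

/-! ## The game -/

/-- EXT (medium): EXTENSION OF POSITIONS.
Proof: `y ∈ A`: nothing to do. Otherwise `B = (A⟮y⟯).toSubfield` (CLB) and ACC give `A₁ ⊇ B` with `Good Φ A₁`, its elements algebraic over `A⟮y⟯`. `rep` = a section of `pr`. SAT for `Λ = A₁` and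
`C E j χ` = `CND Φ A E (..) (2^(N' j)) χ` (monotone in `E`; FSX) gives `χ_j`. `f₁ x = pr (j ↦ χ_j x)`, `x ∈ A₁`: `f₁ = f` on `A`; additive and multiplicative (`E = {x, x', x + x'}` etc.), `f₁ 1 = f 1 = 1`: a ring homomorphism; `Φ' (f₁ (Φ x)) = f₁ x` by the
last condition for `E = {x, Φ x}` and `IsFr`. -/
def EXT_stmt : Prop := ∀ (N N' : ℕ → ℕ) (Φ Φ' : KS ≃+* KS), IsFr N Φ → IsFr N' Φ' → Tendsto N atTop atTop →
  Tendsto N' atTop atTop → ∀ (A : Subfield KS) (f : A →+* KS), Pos Φ Φ' A f → ∀ y : KS, Φ y = y →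
    ∃ (A₁ : Subfield KS) (f₁ : A₁ →+* KS) (hA : A ≤ A₁), Pos Φ Φ' A₁ f₁ ∧ y ∈ A₁ ∧
      ∀ (x : KS) (hx : x ∈ A), f₁ ⟨x, hA hx⟩ = f ⟨x, hx⟩

/-- INV (medium): the inverse position.
Proof: `A'` = the image of `f`, `g` = the inverse of `f : A ≅ A'`. `A` is algebraically closed (`acl`, ACL), so `A'` is, so it is relatively algebraically closed. From `Φ' (f (Φ x)) = f x`: `Φ' (f x) = f (Φ⁻¹ x)`, where `Φ⁻¹ x = Φ^[e-1] x ∈ A`; so
`Φ'^[e] (f x) = f x` if `Φ^[e] x = x`. `Φ (g (Φ' x')) = Φ (Φ⁻¹ x) = x = g x'` for `x' = f x`. -/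
def INV_stmt : Prop := ∀ (Φ Φ' : KS ≃+* KS) (A : Subfield KS) (f : A →+* KS), Pos Φ Φ' A f →
  ∃ (A' : Subfield KS) (g : A' →+* KS), Pos Φ' Φ A' g ∧ (∀ x : A, ∃ hx : f x ∈ A', g ⟨f x, hx⟩ = x) ∧
    ∀ x' ∈ A', ∃ x : A, f x = x'

/-- BKX (short-medium): extension at the other side.
Proof: INV, EXT for `(Φ', Φ)`, the inverse position `(A', g)` and `y'`: `(A'₁, g₁)`, INV again: `(A₁, f₁)` with `f₁ (g₁ x') = x'`, `A₁` = the image of `g₁` (last part of INV for the membership: `g₁ x' ∈ A₁`). `A ≤ A₁`: `x = g (f x) = g₁ (f x)`, and `f₁ x = f x`. `x = g₁ y'`: `Φ x = Φ (g₁ (Φ' y')) = g₁ y' = x`. -/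
def BKX_stmt : Prop := ∀ (N N' : ℕ → ℕ) (Φ Φ' : KS ≃+* KS), IsFr N Φ → IsFr N' Φ' → Tendsto N atTop atTop →
  Tendsto N' atTop atTop → ∀ (A : Subfield KS) (f : A →+* KS), Pos Φ Φ' A f → ∀ y' : KS, Φ' y' = y' →
    ∃ (A₁ : Subfield KS) (f₁ : A₁ →+* KS) (hA : A ≤ A₁), Pos Φ Φ' A₁ f₁ ∧
      (∀ (x : KS) (hx : x ∈ A), f₁ ⟨x, hA hx⟩ = f ⟨x, hx⟩) ∧ ∃ x : A₁, f₁ x = y' ∧ Φ x = x

/-- INI (medium): the initial position.
Proof: `S` = the range of `a`, CLB (second part) and ACC for `Subfield.closure S`: `A` with `Good Φ A`. Let `x = pr t ∈ A`, `Φ^[e] x = x`, `e ≥ 1`: `t_j^(2^(N_j e)) = t_j` for almost all `j`; for almost all `j` moreover `e ∣ m_j + 1`, and then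
`(t_j^(2^(N_j)))^(2^(N_j m_j)) = t_j^(2^(N_j (m_j + 1))) = t_j`. So `Φ' (Φ x) = x`. -/
def INI_stmt : Prop := ∀ (N m : ℕ → ℕ) (Φ Φ' : KS ≃+* KS), IsFr N Φ → IsFr (fun j => N j * m j) Φ' →
  (∀ e : ℕ, 1 ≤ e → ∀ᶠ j in (UU : Filter ℕ), e ∣ m j + 1) → ∀ (r : ℕ) (a : Fin r → KS), (∀ i, Φ (a i) = a i) →
    ∃ A : Subfield KS, Pos Φ Φ' A A.subtype ∧ ∀ i, a i ∈ A

end

end Pool.Agent.helper70.QSD
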