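import Pool.Agent.helper70.QSD.SpecC

/-!
# Project qsd, block D: formulas, transfer, designs

Rules in `Defs.lean`.
-/

set_option linter.unusedVariables false

namespace Pool.Agent.helper70.QSD

open Pool.Agent.helper53.AU
open scoped Classical IntermediateField Polynomial
open Filter (Tendsto atTop)
open FirstOrder

noncomputable section

/-! ## Formulas -/

/-- REL (short-medium): truth in a field is truth relative to its image in a bigger field.
Proof: induction on the formula; terms: `tv t (ι ∘ v) = ι (t.realize v)` (induction on `t`, the functions of the language of rings are `+ * - 0 1`; the ring structures are `CompatibleRing`), `ι` is injective; there are no relation symbols; `all`: the elements of the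
range are the `ι x`, and `ι ∘ Fin.snoc xs x = Fin.snoc (ι ∘ xs) (ι x)`. -/
def REL_stmt : Prop := ∀ (K Ω : Type) [Field K] [Field Ω] [Ring.CompatibleRing K] (ι : K →+* Ω) (α : Type) (n : ℕ)
  (φ : Language.ring.BoundedFormula α n) (v : α → K) (xs : Fin n → K),
    φ.Realize v xs ↔ RZ (Set.range ι) φ (fun i => ι (v i)) (fun i => ι (xs i))

/-- LOS (medium): the theorem of Łoś for the fixed fields.
Proof: terms: `tv t (pr ∘ v) = pr (j ↦ tv t (v · j))` (induction on `t`). Induction on the formula: `equal`: equality in `KS` is equality for almost all `j`; `imp`: ultrafilter; `all`: if the right side fails for almost all `j` choose `x_j` with `x_j^(2^(N j)) = x_j` and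
`RZ` false (other `j`: 0): `Φ (pr x) = pr x`; conversely if `Φ (pr x) = pr x` then `x_j^(2^(N j)) = x_j` for almost all `j`. -/
def LOS_stmt : Prop := ∀ (N : ℕ → ℕ) (Φ : KS ≃+* KS), IsFr N Φ → ∀ (α : Type) (n : ℕ)
  (φ : Language.ring.BoundedFormula α n) (v : α → ℕ → kk) (xs : Fin n → ℕ → kk),
    RZ {x : KS | Φ x = x} φ (fun i => pr (v i)) (fun i => pr (xs i)) ↔
      ∀ᶠ j in (UU : Filter ℕ), RZ {x : kk | x ^ 2 ^ N j = x} φ (fun i => v i j) (fun i => xs i j)

/-- BFE (medium): BACK AND FORTH.
Proof: induction on the formula, for all positions. Terms: `tv t (f ∘ v) = f (tv t v)` for the field homomorphism `f` and for the inclusion of `A` in `KS`; `f` injective. `all`, from right to left: given `x` with `Φ x = x`, EXT gives a position `(A₁, f₁)` with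
`x ∈ A₁`; `Φ' (f₁ x) = Φ' (f₁ (Φ x)) = f₁ x`; apply the right side to `f₁ x` and the induction hypothesis for `(A₁, f₁)`. From left to right: given `x'` with `Φ' x' = x'`, BKX gives `x ∈ A₁`, `Φ x = x`, `f₁ x = x'`. -/
def BFE_stmt : Prop := ∀ (N N' : ℕ → ℕ) (Φ Φ' : KS ≃+* KS), IsFr N Φ → IsFr N' Φ' → Tendsto N atTop atTop →
  Tendsto N' atTop atTop → ∀ (α : Type) (n : ℕ) (φ : Language.ring.BoundedFormula α n) (A : Subfield KS)
  (f : A →+* KS), Pos Φ Φ' A f → ∀ (v : α → A) (xs : Fin n → A), (∀ i, Φ (v i) = v i) → (∀ i, Φ (xs i) = xs i) →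
    (RZ {x : KS | Φ x = x} φ (fun i => (v i : KS)) (fun i => (xs i : KS)) ↔
      RZ {x : KS | Φ' x = x} φ (fun i => f (v i)) (fun i => f (xs i)))

/-- TRN (medium): THE TRANSFER THEOREM.
Proof: suppose that for every `j` the choice `n₀ = j`, `L = (j + 1)!` fails: `n_j ≥ j`, `(j + 1)! ∣ m_j + 1`, `a_j` with `a_{j,i}^(2^(n_j)) = a_{j,i}` and exactly one of the two sides true. `Φ, Φ'` from FRB for `n_j`, `n_j m_j` (both tend to infinity: `m_j ≥ 1` for `j ≥ 1`). `a i = pr (j ↦ a_{j,i})`,
`Φ (a i) = a i`. INI (`e ∣ (j + 1)!` for `j ≥ e`, and almost all `j` are `≥ e`) gives a position `(A, inclusion)`, BFE: the formula is true relative to the fixed field of `Φ` iff relative to that of `Φ'`; LOS twice: for almost all `j` true (or false) on the left and for almost all `j` true (or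
false) on the right: contradiction. -/
def TRN_stmt : Prop := ∀ (r : ℕ) (φ : Language.ring.Formula (Fin r)), ∃ n₀ L : ℕ, 1 ≤ L ∧ ∀ n m : ℕ, n₀ ≤ n →
  L ∣ m + 1 → ∀ a : Fin r → kk, (∀ i, a i ^ 2 ^ n = a i) →
    (RZ {x : kk | x ^ 2 ^ n = x} φ a default ↔ RZ {x : kk | x ^ 2 ^ (n * m) = x} φ a default)

/-- EMB (short-medium): the fields with `2^n` elements. Proof: characteristic 2 (`card`), `K` embeds in `kk` (algebraic over its prime field, `IsAlgClosed.lift`); all elements satisfy `x^(2^n) = x`, and this polynomial has at most `2^n` roots in `kk`.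
Existence: `GaloisField 2 n`. -/
def EMB_stmt : Prop := (∀ (K : Type) [Field K] [Fintype K] (n : ℕ), Fintype.card K = 2 ^ n → CharP K 2 ∧
    ∃ ι : K →+* kk, Set.range ι = {x : kk | x ^ 2 ^ n = x}) ∧
  ∀ n : ℕ, 1 ≤ n → ∃ (K : Type) (_ : Field K) (_ : Fintype K), Fintype.card K = 2 ^ n

/-! ## Designs -/

/-- DEF (medium): the regularity of a definable family is expressed by a formula (the same for all fields).
Proof: `Reg4 θ a lam` is built from equalities of terms, `θ` (with substituted variables), `and, or, not`, quantifiers over `K`, and: there are `4 lam` different elements `w_1 ..` (the elements of `W`) such that `w` satisfies the condition iff `w` is one of them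
(`Formula.iExs`, `iAlls`, `BoundedFormula.iInf`, `iSup` over `Fin (4 lam)`; `Formula.realize_iExs` etc.; a finset `W` with `4 lam` elements is the range of an injective map from `Fin (4 lam)`). A good way: call a property `R(K, x)`, `x : α → K`, uniformly definable if some
formula realises it in all fields, and prove that the uniformly definable properties are closed under these operations and under substitution of variables (`Formula.relabel`). -/
def DEF_stmt : Prop := ∀ (r : ℕ) (θ : Language.ring.Formula (Fin 3 ⊕ Fin r)) (lam : ℕ),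
  ∃ φ : Language.ring.Formula (Fin r), ∀ (K : Type) [Field K] [Ring.CompatibleRing K] (a : Fin r → K),
    φ.Realize a ↔ Reg4 θ a lam

/-- DSG (medium): a design is regular.
Proof: `u, v` different and not 0: `T = {0, u, v, u + v}` is an additive subgroup of order 4 (characteristic 2). For every block `P ≥ T` (there are `lam`, finite) the 4 elements `w` of `P \ T` satisfy `Ind3 u v w`, `P = {x : Sp3 u v w x}` (8 elements), and `Blk3 θ a u v w` (the basis
of `P` in the definition of `Blocks`; it is independent because it generates a group of order 8). Conversely, if `Ind3 u v w` and `Blk3 θ a u v w` then `P = {x : Sp3 u v w x}` is a subgroup of order 8, generated by the basis `u', v', w'`, so it is a block, `P ≥ T`, `w ∈ P \ T`. So `W`, the set of these `w`,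
is the disjoint union of the `lam` sets `P \ T` (`P` is determined by `w`). -/
def DSG_stmt : Prop := ∀ (K : Type) [Field K] [Fintype K] [CharP K 2] [Ring.CompatibleRing K] (r : ℕ)
  (θ : Language.ring.Formula (Fin 3 ⊕ Fin r)) (a : Fin r → K) (lam : ℕ),
    IsDesign K (Blocks θ a) lam → Reg4 θ a lam

/-- DCT (short-medium): counting modulo 7.
Proof: `X` = the set of the triples `(u, v, w)` with `Ind3 u v w` and `B u v w`: `#X = (2^N - 1)(2^N - 2) 4 lam`. `(u, v, w) ↦ (v, w, u + v)` maps `X` to `X` (`hB`; characteristic 2), its seventh power is the identity, and it has no fixed point on `X` (`u = v`). So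
`7 ∣ #X` (a permutation of order dividing the prime 7 without fixed points: `Equiv.Perm.card_fixedPoints_modEq` or `MulAction.card_modEq_card_fixedPoints`). `2^N = 4 mod 7` for `N = 5 mod 6`: `3 * 2 * 4 lam = 3 lam mod 7`. -/
def DCT_stmt : Prop := ∀ (K : Type) [Field K] [Fintype K] [CharP K 2] (N : ℕ), Fintype.card K = 2 ^ N → N % 6 = 5 →
  ∀ B : K → K → K → Prop, (∀ u v w, B u v w → B v w (u + v)) → ∀ lam : ℕ,
    (∀ u v : K, u ≠ 0 → v ≠ 0 → u ≠ v → ∃ W : Finset K, W.card = 4 * lam ∧
      ∀ w : K, w ∈ W ↔ (Ind3 u v w ∧ B u v w)) → 7 ∣ lam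

/-- FIN (medium): THE THEOREM.
Proof: `φ` from DEF, `n₀, L` from TRN; `m = 6 L - 1`. For `n ≥ max n₀ 1`, `n = 1 mod 6`: `N = n m = 5 mod 6`. Suppose the blocks form a design. DSG: `Reg4 θ a lam`, so `φ.Realize a`; REL and EMB: `RZ {x | x^(2^n) = x} φ (ι a)`; TRN: `RZ {x | x^(2^N) = x} φ (ι a)`; let `K'` be a field with
`2^N` elements, `ι'` its embedding (EMB); `ι a_i` is in the range of `ι'` (`x^(2^n) = x` implies `x^(2^(n m)) = x`): `ι a_i = ι' a'_i`; REL: `φ.Realize a'` in `K'` (with `Ring.compatibleRingOfRing K'`), so `Reg4 θ a' lam` in `K'`. `Blk3 θ a'` is invariant under `(u, v, w) ↦ (v, w, u + v)`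
(the same subspace: `Sp3`, characteristic 2). DCT: `7 ∣ lam`. -/
def FIN_stmt : Prop := ∀ (r : ℕ) (θ : Language.ring.Formula (Fin 3 ⊕ Fin r)) (lam : ℕ), ¬ 7 ∣ lam →
  ∃ n₀ : ℕ, ∀ n : ℕ, n₀ ≤ n → n % 6 = 1 → ∀ (K : Type) [Field K] [Fintype K] [Ring.CompatibleRing K],
    Fintype.card K = 2 ^ n → ∀ a : Fin r → K, ¬ IsDesign K (Blocks θ a) lam

end

end Pool.Agent.helper70.QSD
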